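import Mathlib

/-!
Cauchy-type systems: the algebraic identities.
-/

set_option linter.unusedSectionVars false

namespace Pool.Agent.H875.DK

open Polynomial

section
variable {F : Type*} [Field F] {ι : Type*} [DecidableEq ι]

/-- the polynomial with roots `a i`, `i ∈ R` -/
noncomputable def Qp (a : ι → F) (R : Finset ι) : F[X] := ∏ i ∈ R, (X - C (a i))

theorem Qp_monic (a : ι → F) (R : Finset ι) : (Qp a R).Monic := monic_prod_of_monic _ _ fun i _ => monic_X_sub_C _

theorem Qp_natDegree (a : ι → F) (R : Finset ι) : (Qp a R).natDegree = R.card := by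
  unfold Qp
  rw [natDegree_prod_of_monic _ _ fun i _ => monic_X_sub_C _]
  simp

theorem Qp_eval (a : ι → F) (R : Finset ι) (z : F) : (Qp a R).eval z = ∏ i ∈ R, (z - a i) := by
  unfold Qp
  rw [eval_prod]
  simp

theorem Qp_erase (a : ι → F) (R : Finset ι) {i : ι} (hi : i ∈ R) :
    (X - C (a i)) * Qp a (R.erase i) = Qp a R := by
  unfold Qp
  exact Finset.mul_prod_erase _ _ hi

/-- the numerator of `x0 + ∑ x i / (z - a i)` -/
noncomputable def Nx (a : ι → F) (R : Finset ι) (x0 : F) (x : ι → F) : F[X] :=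
  C x0 * Qp a R + ∑ i ∈ R, C (x i) * Qp a (R.erase i)

theorem Nx_eval_node (a : ι → F) (R : Finset ι) (x0 : F) (x : ι → F) {i : ι}
    (hi : i ∈ R) : (Nx a R x0 x).eval (a i) = x i * ∏ l ∈ R.erase i, (a i - a l) := by
  unfold Nx
  rw [eval_add, eval_mul, eval_C, Qp_eval, Finset.prod_eq_zero hi (sub_self _), mul_zero, zero_add,
    eval_finsetSum, Finset.sum_eq_single i]
  · rw [eval_mul, eval_C, Qp_eval]
  · intro l hl hli
    rw [eval_mul, Qp_eval, Finset.prod_eq_zero (Finset.mem_erase.mpr ⟨Ne.symm hli, hi⟩) (sub_self _),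
      mul_zero]
  · intro h; exact absurd hi h

theorem Nx_eval (a : ι → F) (R : Finset ι) (x0 : F) (x : ι → F) (z : F) (hz : ∀ i ∈ R, z - a i ≠ 0) :
    (Nx a R x0 x).eval z = (∏ i ∈ R, (z - a i)) * (x0 + ∑ i ∈ R, x i / (z - a i)) := by
  unfold Nx
  rw [eval_add, eval_mul, eval_C, Qp_eval, eval_finsetSum, mul_add, Finset.mul_sum]
  congr 1
  · ring
  · refine Finset.sum_congr rfl fun i hi => ?_
    rw [eval_mul, eval_C, Qp_eval, ← Finset.mul_prod_erase R _ hi]
    have := hz i hi
    field_simp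

theorem Nx_natDegree (a : ι → F) (R : Finset ι) (x0 : F) (x : ι → F) :
    (Nx a R x0 x).natDegree ≤ R.card := by
  unfold Nx
  refine (natDegree_add_le _ _).trans (max_le ?_ ?_)
  · exact (natDegree_C_mul_le _ _).trans (Qp_natDegree a R).le
  · apply natDegree_sum_le_of_forall_le
    intro i hi
    refine (natDegree_C_mul_le _ _).trans ?_
    rw [Qp_natDegree]
    exact Finset.card_le_card (Finset.erase_subset _ _)

theorem Nx_coeff (a : ι → F) (R : Finset ι) (x0 : F) (x : ι → F) :
    (Nx a R x0 x).coeff R.card = x0 := by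
  unfold Nx
  rw [coeff_add, coeff_C_mul]
  have h1 : (Qp a R).coeff R.card = 1 := by
    have := (Qp_monic a R).coeff_natDegree
    rwa [Qp_natDegree] at this
  rw [h1, mul_one, finsetSum_coeff, Finset.sum_eq_zero, add_zero]
  intro i hi
  rw [coeff_C_mul, coeff_eq_zero_of_natDegree_lt, mul_zero]
  rw [Qp_natDegree, Finset.card_erase_of_mem hi]
  have := Finset.card_pos.mpr ⟨i, hi⟩
  omega

theorem Nx_ne_zero (a : ι → F) (ha : Function.Injective a) (R : Finset ι) (x0 : F) (x : ι → F)
    (hx : ∀ i ∈ R, x i ≠ 0) (h : x0 ≠ 0 ∨ R.Nonempty) : Nx a R x0 x ≠ 0 := by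
  intro h0
  rcases h with h | ⟨i, hi⟩
  · apply h
    rw [← Nx_coeff a R x0 x, h0, coeff_zero]
  · have h1 := Nx_eval_node a R x0 x hi
    rw [h0, eval_zero] at h1
    refine (mul_ne_zero (hx i hi) (Finset.prod_ne_zero_iff.mpr fun l hl => ?_)) h1.symm
    rw [sub_ne_zero]
    intro h2
    exact (Finset.mem_erase.mp hl).1 (ha h2).symm

/-- two polynomials of degree at most `s.card` with the same coefficient in that degree and the same
values at `s.card` points are equal -/
theorem eq_of_values {f g : F[X]} {κ : Type*} (s : Finset κ) (b : κ → F) (hb : Set.InjOn b s)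
    (hf : f.natDegree ≤ s.card) (hg : g.natDegree ≤ s.card) (hc : f.coeff s.card = g.coeff s.card)
    (h : ∀ j ∈ s, f.eval (b j) = g.eval (b j)) : f = g := by
  rw [← sub_eq_zero]
  refine eq_zero_of_degree_lt_of_eval_index_eq_zero s hb ?_ (fun j hj => by
    rw [eval_sub, h j hj, sub_self])
  by_cases h0 : f - g = 0
  · rw [h0, degree_zero]; exact WithBot.bot_lt_coe _
  · rw [degree_eq_natDegree h0]
    have h1 : (f - g).natDegree ≤ s.card := (natDegree_sub_le _ _).trans (max_le hf hg)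
    have h2 : (f - g).natDegree ≠ s.card := by
      intro h3
      have h4 : (f - g).leadingCoeff ≠ 0 := leadingCoeff_ne_zero.mpr h0
      apply h4
      rw [leadingCoeff, h3, coeff_sub, hc, sub_self]
    exact_mod_cast lt_of_le_of_ne h1 h2

/-- number of roots -/
theorem card_le_of_roots (a b : ι → F) (ha : Function.Injective a) (hb : Function.Injective b)
    (R S : Finset ι) (x0 : F) (x : ι → F) (hx : ∀ i ∈ R, x i ≠ 0) (h : x0 ≠ 0 ∨ R.Nonempty)
    (hab : ∀ i j, a i ≠ b j) (heq : ∀ j ∈ S, x0 + ∑ i ∈ R, x i / (b j - a i) = 0) :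
    S.card ≤ R.card := by
  by_contra hlt
  push Not at hlt
  apply Nx_ne_zero a ha R x0 x hx h
  refine eq_zero_of_degree_lt_of_eval_index_eq_zero S hb.injOn ?_ ?_
  · refine lt_of_le_of_lt degree_le_natDegree ?_
    exact_mod_cast lt_of_le_of_lt (Nx_natDegree a R x0 x) hlt
  · intro j hj
    rw [Nx_eval a R x0 x (b j) (fun i _ => sub_ne_zero.mpr (hab i j).symm), heq j hj, mul_zero]

theorem Nx_eq (a b : ι → F) (hb : Function.Injective b)
    (R S : Finset ι) (hRS : S.card = R.card) (x0 : F) (x : ι → F)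
    (hab : ∀ i j, a i ≠ b j) (heq : ∀ j ∈ S, x0 + ∑ i ∈ R, x i / (b j - a i) = 0) :
    Nx a R x0 x = C x0 * Qp b S := by
  refine eq_of_values S b hb.injOn ?_ ?_ ?_ ?_
  · rw [hRS]; exact Nx_natDegree a R x0 x
  · exact (natDegree_C_mul_le _ _).trans (Qp_natDegree b S).le
  · have h1 : (Qp b S).coeff S.card = 1 := by
      have := (Qp_monic b S).coeff_natDegree
      rwa [Qp_natDegree] at this
    rw [coeff_C_mul, h1, mul_one, hRS, Nx_coeff]
  · intro j hj
    rw [Nx_eval a R x0 x (b j) (fun i _ => sub_ne_zero.mpr (hab i j).symm), heq j hj, mul_zero,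
      eval_mul, Qp_eval, Finset.prod_eq_zero hj (sub_self _), mul_zero]

/-- the values of the coefficients -/
theorem x_eq (a b : ι → F) (hb : Function.Injective b)
    (R S : Finset ι) (hRS : S.card = R.card) (x0 : F) (x : ι → F)
    (hab : ∀ i j, a i ≠ b j) (heq : ∀ j ∈ S, x0 + ∑ i ∈ R, x i / (b j - a i) = 0) {i : ι}
    (hi : i ∈ R) : x i * ∏ l ∈ R.erase i, (a i - a l) = x0 * ∏ j ∈ S, (a i - b j) := by
  rw [← Nx_eval_node a R x0 x hi, Nx_eq a b hb R S hRS x0 x hab heq, eval_mul, eval_C, Qp_eval]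

/-- derivative of the product polynomial at a node -/
theorem Qp_derivative_eval (a : ι → F) (R : Finset ι) {i : ι} (hi : i ∈ R) :
    (derivative (Qp a R)).eval (a i) = ∏ l ∈ R.erase i, (a i - a l) := by
  rw [← Qp_erase a R hi, derivative_mul, eval_add, eval_mul, eval_mul, derivative_X_sub_C, eval_one,
    one_mul, Qp_eval, eval_sub, eval_X, eval_C, sub_self, zero_mul, add_zero]

/-- the sum of `y j / (z - b j)^2` -/
theorem sum_sq (b : ι → F) (S : Finset ι) (y0 : F) (y : ι → F) (z : F) (hz : ∀ j ∈ S, z - b j ≠ 0)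
    (hN : (Nx b S y0 y).eval z = 0) :
    (∏ j ∈ S, (z - b j)) * ∑ j ∈ S, y j / (z - b j) ^ 2 = - (derivative (Nx b S y0 y)).eval z := by
  have hQ : (∏ j ∈ S, (z - b j)) ≠ 0 := Finset.prod_ne_zero_iff.mpr hz
  -- the polynomial identity
  have key : derivative (Nx b S y0 y) * Qp b S - Nx b S y0 y * derivative (Qp b S) =
      - ∑ j ∈ S, C (y j) * Qp b (S.erase j) ^ 2 := by
    unfold Nx
    rw [derivative_add, derivative_mul, derivative_C, zero_mul, zero_add, derivative_sum, add_mul,
      add_mul, Finset.sum_mul, Finset.sum_mul]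
    have h1 : ∀ j ∈ S, derivative (C (y j) * Qp b (S.erase j)) * Qp b S -
        C (y j) * Qp b (S.erase j) * derivative (Qp b S) = -(C (y j) * Qp b (S.erase j) ^ 2) := by
      intro j hj
      rw [← Qp_erase b S hj, derivative_mul, derivative_mul, derivative_C, derivative_X_sub_C]
      ring
    rw [← Finset.sum_neg_distrib, ← Finset.sum_congr rfl h1, Finset.sum_sub_distrib]
    ring
  have h2 := congrArg (fun p => p.eval z) key
  simp only [eval_sub, eval_mul, eval_neg, eval_finsetSum, eval_pow, eval_C, hN, zero_mul,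
    sub_zero, Qp_eval] at h2
  have h3 : ∑ j ∈ S, y j * (∏ l ∈ S.erase j, (z - b l)) ^ 2 =
      (∏ j ∈ S, (z - b j)) ^ 2 * ∑ j ∈ S, y j / (z - b j) ^ 2 := by
    rw [Finset.mul_sum]
    refine Finset.sum_congr rfl fun j hj => ?_
    rw [← Finset.mul_prod_erase S _ hj]
    have := hz j hj
    field_simp
  rw [h3] at h2
  apply mul_left_cancel₀ hQ
  linear_combination h2

/-- the double sum -/
theorem double_sum (a b : ι → F) (ha : Function.Injective a) (hb : Function.Injective b)
    (R S : Finset ι) (hRS : S.card = R.card) (x0 y0 : F) (x y : ι → F)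
    (hab : ∀ i j, a i ≠ b j)
    (heq : ∀ j ∈ S, x0 + ∑ i ∈ R, x i / (b j - a i) = 0)
    (heq' : ∀ i ∈ R, y0 + ∑ j ∈ S, y j / (a i - b j) = 0) :
    ∑ i ∈ R, ∑ j ∈ S, x i * y j / (a i - b j) ^ 2 = - (R.card : F) * (x0 * y0) := by
  have h1 : ∀ i ∈ R, ∑ j ∈ S, x i * y j / (a i - b j) ^ 2 = - (x0 * y0) := by
    intro i hi
    have hz : ∀ j ∈ S, a i - b j ≠ 0 := fun j _ => sub_ne_zero.mpr (hab i j)
    have hN : (Nx b S y0 y).eval (a i) = 0 := by
      rw [Nx_eval b S y0 y (a i) hz, heq' i hi, mul_zero]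
    have h2 := sum_sq b S y0 y (a i) hz hN
    have h3 : Nx b S y0 y = C y0 * Qp a R := by
      apply Nx_eq b a ha S R hRS.symm y0 y (fun i j => (hab j i).symm)
      exact heq'
    rw [h3, derivative_mul, derivative_C, zero_mul, zero_add, eval_mul, eval_C,
      Qp_derivative_eval a R hi] at h2
    have h4 := x_eq a b hb R S hRS x0 x hab heq hi
    have hQ : (∏ j ∈ S, (a i - b j)) ≠ 0 := Finset.prod_ne_zero_iff.mpr hz
    have h5 : ∑ j ∈ S, x i * y j / (a i - b j) ^ 2 = x i * ∑ j ∈ S, y j / (a i - b j) ^ 2 := by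
      rw [Finset.mul_sum]
      exact Finset.sum_congr rfl fun j _ => by rw [mul_div_assoc]
    rw [h5]
    apply mul_left_cancel₀ hQ
    linear_combination (x i) * h2 - y0 * h4
  rw [Finset.sum_congr rfl h1, Finset.sum_const, nsmul_eq_mul]
  ring

/-- solution of the system -/
noncomputable def sol (a b : ι → F) (R S : Finset ι) (i : ι) : F :=
  if i ∈ R then (∏ j ∈ S, (a i - b j)) / ∏ l ∈ R.erase i, (a i - a l) else 0

theorem sol_spec (a b : ι → F) (ha : Function.Injective a)
    (R S : Finset ι) (hRS : S.card = R.card) (hab : ∀ i j, a i ≠ b j) :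
    ∀ j ∈ S, 1 + ∑ i ∈ R, sol a b R S i / (b j - a i) = 0 := by
  intro j hj
  have h1 : Nx a R 1 (sol a b R S) = C 1 * Qp b S := by
    refine eq_of_values R a ha.injOn (Nx_natDegree a R _ _) ?_ ?_ ?_
    · rw [← hRS]; exact (natDegree_C_mul_le _ _).trans (Qp_natDegree b S).le
    · have h1 : (Qp b S).coeff S.card = 1 := by
        have := (Qp_monic b S).coeff_natDegree
        rwa [Qp_natDegree] at this
      rw [Nx_coeff, ← hRS, coeff_C_mul, h1, mul_one]
    · intro i hi
      rw [Nx_eval_node a R _ _ hi, eval_mul, eval_C, Qp_eval, one_mul]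
      unfold sol
      rw [if_pos hi, div_mul_cancel₀]
      refine Finset.prod_ne_zero_iff.mpr fun l hl => ?_
      rw [sub_ne_zero]
      intro h2
      exact (Finset.mem_erase.mp hl).1 (ha h2).symm
  have h2 := congrArg (fun p => p.eval (b j)) h1
  simp only [eval_mul, Qp_eval] at h2
  rw [Nx_eval a R _ _ (b j) (fun i _ => sub_ne_zero.mpr (hab i j).symm),
    Finset.prod_eq_zero hj (sub_self _), mul_zero] at h2
  exact (mul_eq_zero.mp h2).resolve_left
    (Finset.prod_ne_zero_iff.mpr fun i _ => sub_ne_zero.mpr (hab i j).symm)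

theorem sol_ne_zero (a b : ι → F) (ha : Function.Injective a)
    (R S : Finset ι) (hab : ∀ i j, a i ≠ b j) {i : ι} (hi : i ∈ R) : sol a b R S i ≠ 0 := by
  unfold sol
  rw [if_pos hi]
  refine div_ne_zero (Finset.prod_ne_zero_iff.mpr fun j _ => sub_ne_zero.mpr (hab i j))
    (Finset.prod_ne_zero_iff.mpr fun l hl => ?_)
  rw [sub_ne_zero]
  intro h2
  exact (Finset.mem_erase.mp hl).1 (ha h2).symm

end

end Pool.Agent.H875.DK
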