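import Mathlib

/-!
A criterion for a concise tensor not to lie on a secant variety of a Segre variety: the valuative
argument.
-/

namespace Pool.Agent.H875.DK

open IsLocalRing

/-- the tensor `T` is a sum of `k` decomposable tensors -/
def Rk {K : Type*} [Field K] {α β γ : Type*} (k : ℕ) (T : α → β → γ → K) : Prop :=
  ∃ (u : Fin k → α → K) (v : Fin k → β → K) (w : Fin k → γ → K),
    ∀ i j l, T i j l = ∑ p, u p i * v p j * w p l

/-- The hypotheses of the criterion: the slices `N i` of the tensor are linearly independent over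
every extension field, every decomposable matrix in their span is a multiple of one of the
`x s ⊗ y s`, and the tangent space at that point meets the span only in the point. -/
structure Good {α β γ ι : Type} [Fintype α] (N : α → β → γ → ℂ) (x : ι → β → ℂ) (y : ι → γ → ℂ) :
    Prop where
  lin : ∀ (κ : Type) [Field κ] (σ : ℂ →+* κ) (ν : α → κ),
    (∀ j l, ∑ i, ν i * σ (N i j l) = 0) → ν = 0
  pt : ∀ (κ : Type) [Field κ] (σ : ℂ →+* κ) (ν : α → κ) (x' : β → κ) (y' : γ → κ),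
    x' ≠ 0 → y' ≠ 0 → (∀ j l, x' j * y' l = ∑ i, ν i * σ (N i j l)) →
    ∃ s : ι, (∃ c : κ, ∀ j, x' j = c * σ (x s j)) ∧ ∃ c : κ, ∀ l, y' l = c * σ (y s l)
  tan : ∀ (κ : Type) [Field κ] (σ : ℂ →+* κ) (ν : α → κ) (s : ι) (ξ : β → κ) (η : γ → κ),
    (∀ j l, ξ j * σ (y s l) + σ (x s j) * η l = ∑ i, ν i * σ (N i j l)) →
    (∃ c : κ, ∀ j, ξ j = c * σ (x s j)) ∧ ∃ c : κ, ∀ l, η l = c * σ (y s l)
  hx : ∀ s, x s ≠ 0
  hy : ∀ s, y s ≠ 0

section val

variable {L : Type} [Field L] (B : ValuationSubring L)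

/-- a nonzero vector can be divided by one of its entries, with integral result -/
theorem exists_norm {δ : Type*} [Finite δ] (v : δ → L) (hv : v ≠ 0) :
    ∃ d0, v d0 ≠ 0 ∧ ∀ d, v d / v d0 ∈ B := by
  obtain ⟨d1, hd1⟩ := Function.ne_iff.mp hv
  haveI : Nonempty δ := ⟨d1⟩
  obtain ⟨d0, hd0⟩ := Finite.exists_max (fun d => B.valuation (v d))
  have hne : v d0 ≠ 0 := by
    intro h
    have := hd0 d1
    rw [h, map_zero] at this
    have h2 : B.valuation (v d1) = 0 := le_antisymm this zero_le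
    rw [Valuation.zero_iff] at h2
    exact hd1 h2
  refine ⟨d0, hne, fun d => ?_⟩
  rw [← B.valuation_le_one_iff, map_div₀]
  exact div_le_one_of_le₀ (hd0 d) zero_le

end val

section red

variable {L : Type} [Field L] {B : ValuationSubring L} {α β γ : Type} [Fintype α]
  {U : α → β → γ → L} {κ : Type} [Field κ] {N : α → β → γ → κ}

/-- `x` is in the valuation ring and reduces to `z` -/
def Red (ρ : B →+* κ) (x : L) (z : κ) : Prop := ∃ h : x ∈ B, ρ ⟨x, h⟩ = z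

variable {ρ : B →+* κ}

theorem Red.add {x x' : L} {z z' : κ} (h : Red ρ x z) (h' : Red ρ x' z') :
    Red ρ (x + x') (z + z') := by
  obtain ⟨h1, h2⟩ := h
  obtain ⟨h1', h2'⟩ := h'
  refine ⟨B.add_mem _ _ h1 h1', ?_⟩
  rw [← h2, ← h2', ← map_add]
  rfl

theorem Red.sub {x x' : L} {z z' : κ} (h : Red ρ x z) (h' : Red ρ x' z') :
    Red ρ (x - x') (z - z') := by
  obtain ⟨h1, h2⟩ := h
  obtain ⟨h1', h2'⟩ := h'
  refine ⟨sub_mem h1 h1', ?_⟩
  rw [← h2, ← h2', ← map_sub]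
  rfl

theorem Red.mul {x x' : L} {z z' : κ} (h : Red ρ x z) (h' : Red ρ x' z') :
    Red ρ (x * x') (z * z') := by
  obtain ⟨h1, h2⟩ := h
  obtain ⟨h1', h2'⟩ := h'
  refine ⟨B.mul_mem _ _ h1 h1', ?_⟩
  rw [← h2, ← h2', ← map_mul]
  rfl

theorem Red.zero : Red ρ 0 0 := ⟨B.zero_mem, by
  have : (⟨0, B.zero_mem⟩ : B) = 0 := rfl
  rw [this, map_zero]⟩

theorem Red.one : Red ρ 1 1 := ⟨B.one_mem, by
  have : (⟨1, B.one_mem⟩ : B) = 1 := rfl
  rw [this, map_one]⟩

theorem Red.sum {δ : Type*} (s : Finset δ) (x : δ → L) (z : δ → κ) (h : ∀ d ∈ s, Red ρ (x d) (z d)) :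
    Red ρ (∑ d ∈ s, x d) (∑ d ∈ s, z d) := by
  classical
  induction s using Finset.induction_on with
  | empty => rw [Finset.sum_empty, Finset.sum_empty]; exact Red.zero
  | insert d s hd ih =>
    rw [Finset.sum_insert hd, Finset.sum_insert hd]
    exact (h d (Finset.mem_insert_self _ _)).add (ih fun d' hd' => h d' (Finset.mem_insert_of_mem hd'))

theorem Red.unique {x : L} {z z' : κ} (h : Red ρ x z) (h' : Red ρ x z') : z = z' := by
  obtain ⟨h1, h2⟩ := h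
  obtain ⟨h1', h2'⟩ := h'
  rw [← h2, ← h2']

theorem Red.of_mem {x : L} (h : x ∈ B) : ∃ z, Red ρ x z := ⟨ρ ⟨x, h⟩, h, rfl⟩

/-- the reduction of a nonunit is zero -/
theorem Red.eq_zero_of_inv {x : L} {z : κ} (h : Red ρ x z) (hx : x⁻¹ ∉ B) (hx0 : x ≠ 0)
    (hloc : ∀ b : B, ρ b ≠ 0 → (b : L)⁻¹ ∈ B) : z = 0 := by
  by_contra hz
  obtain ⟨h1, h2⟩ := h
  exact hx (hloc ⟨x, h1⟩ (by rw [h2]; exact hz))

theorem Red.inv {x : L} {z : κ} (h : Red ρ x z) (hz : z ≠ 0)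
    (hloc : ∀ b : B, ρ b ≠ 0 → (b : L)⁻¹ ∈ B) : Red ρ x⁻¹ z⁻¹ := by
  obtain ⟨h1, h2⟩ := h
  have h3 : x⁻¹ ∈ B := hloc ⟨x, h1⟩ (by rw [h2]; exact hz)
  have hx : x ≠ 0 := by
    rintro rfl
    apply hz
    rw [← h2]
    exact map_zero ρ
  refine ⟨h3, ?_⟩
  have h4 : ρ ⟨x, h1⟩ * ρ ⟨x⁻¹, h3⟩ = 1 := by
    rw [← map_mul, ← map_one ρ]
    congr 1
    exact Subtype.ext (mul_inv_cancel₀ hx)
  rw [h2] at h4
  exact eq_inv_of_mul_eq_one_right h4

/-- coefficients of an integral combination are integral -/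
theorem integral_coeff (hU : ∀ i j l, Red ρ (U i j l) (N i j l))
    (hloc : ∀ b : B, ρ b ≠ 0 → (b : L)⁻¹ ∈ B)
    (hN : ∀ ν : α → κ, (∀ j l, ∑ i, ν i * N i j l = 0) → ν = 0) (ν : α → L)
    (hν : ∀ j l, ∑ i, ν i * U i j l ∈ B) : ∀ i, ν i ∈ B := by
  by_contra hcon
  push Not at hcon
  obtain ⟨i1, hi1⟩ := hcon
  have hν0 : ν ≠ 0 := by
    rintro rfl
    exact hi1 B.zero_mem
  obtain ⟨i0, hi0, hdiv⟩ := exists_norm B ν hν0
  have hi0' : ν i0 ∉ B := by
    intro h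
    apply hi1
    have : ν i1 = ν i1 / ν i0 * ν i0 := by field_simp
    rw [this]
    exact B.mul_mem _ _ (hdiv i1) h
  have hinv : (ν i0)⁻¹ ∈ B := (B.mem_or_inv_mem (ν i0)).resolve_left hi0'
  have hred0 : Red ρ (ν i0)⁻¹ 0 := by
    obtain ⟨z, hz⟩ := Red.of_mem (ρ := ρ) hinv
    have : z = 0 := hz.eq_zero_of_inv (by rwa [inv_inv]) (inv_ne_zero hi0) hloc
    rwa [this] at hz
  have hex : ∀ i, ∃ z, Red ρ (ν i / ν i0) z := fun i => Red.of_mem (hdiv i)
  choose z hz using hex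
  have h1 : z = 0 := by
    apply hN
    intro j l
    obtain ⟨w, hw⟩ := Red.of_mem (ρ := ρ) (hν j l)
    have h2 : Red ρ (∑ i, ν i / ν i0 * U i j l) (∑ i, z i * N i j l) :=
      Red.sum _ _ _ fun i _ => (hz i).mul (hU i j l)
    have h3 : ∑ i, ν i / ν i0 * U i j l = (ν i0)⁻¹ * ∑ i, ν i * U i j l := by
      rw [Finset.mul_sum]
      refine Finset.sum_congr rfl fun i _ => ?_
      rw [div_eq_mul_inv]; ring
    rw [h3] at h2
    have h4 := hred0.mul hw
    rw [h2.unique h4, zero_mul]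
  have h5 : z i0 = 1 := by
    have h6 := hz i0
    rw [div_self hi0] at h6
    exact h6.unique Red.one
  rw [h1] at h5
  exact zero_ne_one h5

theorem lin_indep (hU : ∀ i j l, Red ρ (U i j l) (N i j l))
    (hN : ∀ ν : α → κ, (∀ j l, ∑ i, ν i * N i j l = 0) → ν = 0) (ν : α → L)
    (hν : ∀ j l, ∑ i, ν i * U i j l = 0) : ν = 0 := by
  by_contra hν0
  obtain ⟨i0, hi0, hdiv⟩ := exists_norm B ν hν0
  have hex : ∀ i, ∃ z, Red ρ (ν i / ν i0) z := fun i => Red.of_mem (hdiv i)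
  choose z hz using hex
  have h1 : z = 0 := by
    apply hN
    intro j l
    have h2 : Red ρ (∑ i, ν i / ν i0 * U i j l) (∑ i, z i * N i j l) :=
      Red.sum _ _ _ fun i _ => (hz i).mul (hU i j l)
    have h3 : ∑ i, ν i / ν i0 * U i j l = (ν i0)⁻¹ * ∑ i, ν i * U i j l := by
      rw [Finset.mul_sum]
      refine Finset.sum_congr rfl fun i _ => ?_
      rw [div_eq_mul_inv]; ring
    rw [h3, hν j l, mul_zero] at h2
    exact h2.unique Red.zero
  have h5 : z i0 = 1 := by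
    have h6 := hz i0
    rw [div_self hi0] at h6
    exact h6.unique Red.one
  rw [h1] at h5
  exact zero_ne_one h5

end red

end Pool.Agent.H875.DK
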