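import Mathlib
import Pool.Agent.H875.DK.Val
import Pool.Agent.H875.DK.Alg

/-!
The family of tensors: the slices and the decomposable matrices in their span.
-/

set_option linter.unusedSectionVars false

namespace Pool.Agent.H875.DK

variable {F : Type*} [Field F] {ι : Type} [Fintype ι] [DecidableEq ι] {h : ℕ}

/-- `e_0 + (a k - b l) e_k` -/
def xv (a b : ι → F) (h : ℕ) (k l : ι) : Option ι ⊕ Fin h → F
  | Sum.inl none => 1
  | Sum.inl (some i) => if i = k then a k - b l else 0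
  | Sum.inr _ => 0

/-- `f_0 - (a k - b l) f_l` -/
def yv (a b : ι → F) (h : ℕ) (k l : ι) : Option ι ⊕ Fin h → F
  | Sum.inl none => 1
  | Sum.inl (some j) => if j = l then -(a k - b l) else 0
  | Sum.inr _ => 0

/-- the vector `e_0` -/
def zv (ι : Type) (F : Type*) [Field F] (h : ℕ) : Option ι ⊕ Fin h → F
  | Sum.inl none => 1
  | Sum.inl (some _) => 0
  | Sum.inr _ => 0

/-- the unit vectors of the last block -/
def uv (ι : Type) (F : Type*) [Field F] {h : ℕ} (s : Fin h) : Option ι ⊕ Fin h → F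
  | Sum.inl _ => 0
  | Sum.inr s' => if s' = s then 1 else 0

/-- the slices -/
def Nt (a b : ι → F) (o : ι) (t : F) (h : ℕ) :
    (ι × ι) ⊕ Fin h → (Option ι ⊕ Fin h) → (Option ι ⊕ Fin h) → F
  | Sum.inl kl => fun j j' => xv a b h kl.1 kl.2 j * yv a b h kl.1 kl.2 j' +
      if kl = (o, o) then t * (zv ι F h j * zv ι F h j') else 0
  | Sum.inr s => fun j j' => uv ι F s j * uv ι F s j'

/-- the entries of a combination of the slices -/
noncomputable def comb (a b : ι → F) (o : ι) (t : F) (ν : (ι × ι) ⊕ Fin h → F)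
    (j j' : Option ι ⊕ Fin h) : F := ∑ i, ν i * Nt a b o t h i j j'

theorem comb_eq (a b : ι → F) (o : ι) (t : F) (ν : (ι × ι) ⊕ Fin h → F)
    (j j' : Option ι ⊕ Fin h) : comb a b o t ν j j' =
      (∑ k, ∑ l, ν (Sum.inl (k, l)) * (xv a b h k l j * yv a b h k l j')) +
      ν (Sum.inl (o, o)) * (t * (zv ι F h j * zv ι F h j')) +
      ∑ s, ν (Sum.inr s) * (uv ι F s j * uv ι F s j') := by
  unfold comb
  rw [Fintype.sum_sum_type]
  congr 1
  simp only [Nt, mul_add, Finset.sum_add_distrib]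
  rw [Fintype.sum_prod_type]
  congr 1
  rw [Finset.sum_eq_single (o, o)]
  · rw [if_pos rfl]
  · intro e _ he
    rw [if_neg he, mul_zero]
  · intro h; exact absurd (Finset.mem_univ _) h

theorem comb_ss (a b : ι → F) (o : ι) (t : F) (ν : (ι × ι) ⊕ Fin h → F) (k l : ι) :
    comb a b o t ν (Sum.inl (some k)) (Sum.inl (some l)) =
      -(ν (Sum.inl (k, l)) * (a k - b l) ^ 2) := by
  rw [comb_eq, Finset.sum_eq_single k, Finset.sum_eq_single l]
  · simp [xv, yv, zv, uv]; ring
  · intro l' _ hl'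
    simp [yv, Ne.symm hl']
  · intro h; exact absurd (Finset.mem_univ _) h
  · intro k' _ hk'
    refine Finset.sum_eq_zero fun l' _ => ?_
    simp [xv, Ne.symm hk']
  · intro h; exact absurd (Finset.mem_univ _) h

theorem comb_sn (a b : ι → F) (o : ι) (t : F) (ν : (ι × ι) ⊕ Fin h → F) (k : ι) :
    comb a b o t ν (Sum.inl (some k)) (Sum.inl none) =
      ∑ l, ν (Sum.inl (k, l)) * (a k - b l) := by
  rw [comb_eq, Finset.sum_eq_single k]
  · simp [xv, yv, zv, uv]
  · intro k' _ hk'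
    refine Finset.sum_eq_zero fun l' _ => ?_
    simp [xv, Ne.symm hk']
  · intro h; exact absurd (Finset.mem_univ _) h

theorem comb_ns (a b : ι → F) (o : ι) (t : F) (ν : (ι × ι) ⊕ Fin h → F) (l : ι) :
    comb a b o t ν (Sum.inl none) (Sum.inl (some l)) =
      -∑ k, ν (Sum.inl (k, l)) * (a k - b l) := by
  rw [comb_eq, Finset.sum_comm, Finset.sum_eq_single l]
  · simp only [xv, yv, zv, uv, mul_zero, zero_mul, add_zero, Finset.sum_const_zero, if_true, one_mul,
      mul_one]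
    rw [← Finset.sum_neg_distrib]
    exact Finset.sum_congr rfl fun k _ => by ring
  · intro l' _ hl'
    refine Finset.sum_eq_zero fun k' _ => ?_
    simp [yv, Ne.symm hl']
  · intro h; exact absurd (Finset.mem_univ _) h

theorem comb_nn (a b : ι → F) (o : ι) (t : F) (ν : (ι × ι) ⊕ Fin h → F) :
    comb a b o t ν (Sum.inl none) (Sum.inl none) =
      (∑ k, ∑ l, ν (Sum.inl (k, l))) + ν (Sum.inl (o, o)) * t := by
  rw [comb_eq]
  simp [xv, yv, zv, uv]

theorem comb_lr (a b : ι → F) (o : ι) (t : F) (ν : (ι × ι) ⊕ Fin h → F) (j : Option ι) (s : Fin h) :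
    comb a b o t ν (Sum.inl j) (Sum.inr s) = 0 := by
  rw [comb_eq]
  simp [yv, zv, uv]

theorem comb_rl (a b : ι → F) (o : ι) (t : F) (ν : (ι × ι) ⊕ Fin h → F) (j : Option ι) (s : Fin h) :
    comb a b o t ν (Sum.inr s) (Sum.inl j) = 0 := by
  rw [comb_eq]
  simp [xv, zv, uv]

theorem comb_rr (a b : ι → F) (o : ι) (t : F) (ν : (ι × ι) ⊕ Fin h → F) (s s' : Fin h) :
    comb a b o t ν (Sum.inr s) (Sum.inr s') = if s = s' then ν (Sum.inr s) else 0 := by
  rw [comb_eq]
  simp only [xv, yv, zv, uv, mul_zero, Finset.sum_const_zero, zero_add, add_zero]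
  rw [Finset.sum_eq_single s]
  · by_cases hs : s = s'
    · simp [hs]
    · simp [hs, Ne.symm hs]
  · intro s'' _ hs''
    simp [Ne.symm hs'']
  · intro h; exact absurd (Finset.mem_univ _) h

/-- the numerical data -/
structure Data (a b : ι → F) (o : ι) (p q : ι → ℕ) : Prop where
  ha : Function.Injective a
  hb : Function.Injective b
  hab : ∀ i j, a i ≠ b j
  hq : ∀ c, c ≠ o → a o - b c = q c * (b o - b c)
  hp : ∀ r, r ≠ o → b o - a r = p r * (a o - a r)

/-- the product of the weights -/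
def wt (o : ι) (p q : ι → ℕ) (R S : Finset ι) : ℕ := (∏ c ∈ S.erase o, q c) * ∏ r ∈ R.erase o, p r

theorem wt_eq {a b : ι → F} {o : ι} {p q : ι → ℕ} (D : Data a b o p q) (R S : Finset ι) (x0 y0 xo yo : F)
    (hR : o ∈ R) (hS : o ∈ S) (hx : xo * ∏ l ∈ R.erase o, (a o - a l) = x0 * ∏ j ∈ S, (a o - b j))
    (hy : yo * ∏ l ∈ S.erase o, (b o - b l) = y0 * ∏ i ∈ R, (b o - a i)) :
    xo * yo = -(x0 * y0 * (wt o p q R S : F) * (a o - b o) ^ 2) := by
  have h1 : (∏ l ∈ R.erase o, (a o - a l)) ≠ 0 := by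
    refine Finset.prod_ne_zero_iff.mpr fun l hl => ?_
    rw [sub_ne_zero]
    intro h2
    exact (Finset.mem_erase.mp hl).1 (D.ha h2).symm
  have h2 : (∏ l ∈ S.erase o, (b o - b l)) ≠ 0 := by
    refine Finset.prod_ne_zero_iff.mpr fun l hl => ?_
    rw [sub_ne_zero]
    intro h2
    exact (Finset.mem_erase.mp hl).1 (D.hb h2).symm
  have h3 : ∏ j ∈ S, (a o - b j) = (a o - b o) * ((∏ c ∈ S.erase o, (q c : F)) *
      ∏ l ∈ S.erase o, (b o - b l)) := by
    rw [← Finset.mul_prod_erase S _ hS, ← Finset.prod_mul_distrib]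
    congr 1
    exact Finset.prod_congr rfl fun c hc => D.hq c (Finset.mem_erase.mp hc).1
  have h4 : ∏ i ∈ R, (b o - a i) = (b o - a o) * ((∏ r ∈ R.erase o, (p r : F)) *
      ∏ l ∈ R.erase o, (a o - a l)) := by
    rw [← Finset.mul_prod_erase R _ hR, ← Finset.prod_mul_distrib]
    congr 1
    exact Finset.prod_congr rfl fun c hc => D.hp c (Finset.mem_erase.mp hc).1
  rw [h3] at hx
  rw [h4] at hy
  unfold wt
  push_cast
  apply mul_right_cancel₀ (mul_ne_zero h1 h2)
  linear_combination (yo * ∏ l ∈ S.erase o, (b o - b l)) * hx +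
    (x0 * ((a o - b o) * ((∏ c ∈ S.erase o, (q c : F)) * ∏ l ∈ S.erase o, (b o - b l)))) * hy

end Pool.Agent.H875.DK
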