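import Mathlib
import Pool.Agent.H875.DK.Fam

/-!
Classification of the decomposable matrices in the span of the slices.
-/

set_option linter.unusedSectionVars false

namespace Pool.Agent.H875.DK

variable {F : Type*} [Field F] [CharZero F] {ι : Type} [Fintype ι] [DecidableEq ι] {h : ℕ}

theorem sub_ne {a b : ι → F} {o : ι} {p q : ι → ℕ} (D : Data a b o p q) (k l : ι) : a k - b l ≠ 0 :=
  sub_ne_zero.mpr (D.hab k l)

theorem lin_F {a b : ι → F} {o : ι} {p q : ι → ℕ} (D : Data a b o p q) (t : F)
    (ν : (ι × ι) ⊕ Fin h → F) (hν : ∀ j j', comb a b o t ν j j' = 0) : ν = 0 := by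
  funext e
  rcases e with ⟨k, l⟩ | s
  · have h1 := hν (Sum.inl (some k)) (Sum.inl (some l))
    rw [comb_ss, neg_eq_zero] at h1
    exact (mul_eq_zero.mp h1).resolve_right (pow_ne_zero _ (sub_ne D k l))
  · have h1 := hν (Sum.inr s) (Sum.inr s)
    rwa [comb_rr, if_pos rfl] at h1

theorem sum_filter_eq (X : ι → F) (g : ι → F) [DecidablePred fun k => X k ≠ 0] :
    ∑ k ∈ Finset.univ.filter (fun k => X k ≠ 0), X k * g k = ∑ k, X k * g k := by
  rw [Finset.sum_filter]
  refine Finset.sum_congr rfl fun k _ => ?_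
  by_cases hk : X k = 0
  · simp [hk]
  · simp [hk]

/-- the decomposable matrices supported in the first block -/
theorem class_main {a b : ι → F} {o : ι} {p q : ι → ℕ} (D : Data a b o p q)
    (X0 Y0 : F) (X Y : ι → F) (hX : X0 ≠ 0 ∨ ∃ k, X k ≠ 0) (hY : Y0 ≠ 0 ∨ ∃ l, Y l ≠ 0)
    (hpos : ∀ R S : Finset ι, wt o p q R S ≠ 0)
    (ν : ι → ι → F) (hss : ∀ k l, X k * Y l = -(ν k l * (a k - b l) ^ 2))
    (hsn : ∀ k, X k * Y0 = ∑ l, ν k l * (a k - b l))
    (hns : ∀ l, X0 * Y l = -∑ k, ν k l * (a k - b l))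
    (hnn : X0 * Y0 = (∑ k, ∑ l, ν k l) + ν o o * 1) :
    ∃ k l, (k, l) ≠ (o, o) ∧ (∀ i, X i = X0 * (if i = k then a k - b l else 0)) ∧
      ∀ j, Y j = Y0 * (if j = l then -(a k - b l) else 0) := by
  classical
  set R : Finset ι := Finset.univ.filter (fun k => X k ≠ 0) with hR
  set S : Finset ι := Finset.univ.filter (fun k => Y k ≠ 0) with hS
  have memR : ∀ k, k ∈ R ↔ X k ≠ 0 := by intro k; simp [hR]
  have memS : ∀ k, k ∈ S ↔ Y k ≠ 0 := by intro k; simp [hS]
  have hd : ∀ k l, a k - b l ≠ 0 := fun k l => sub_ne D k l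
  have hν : ∀ k l, ν k l = -(X k * Y l) / (a k - b l) ^ 2 := by
    intro k l
    have := hd k l
    rw [hss k l]
    field_simp
  have sumS : ∀ (g : ι → F), ∑ l ∈ S, Y l * g l = ∑ l, Y l * g l := fun g => sum_filter_eq Y g
  have sumR : ∀ (g : ι → F), ∑ k ∈ R, X k * g k = ∑ k, X k * g k := fun g => sum_filter_eq X g
  have heq' : ∀ i ∈ R, Y0 + ∑ j ∈ S, Y j / (a i - b j) = 0 := by
    intro i hi
    have h1 := hsn i
    have h2 : ∑ l, ν i l * (a i - b l) = -(X i * ∑ l, Y l / (a i - b l)) := by
      rw [Finset.mul_sum, ← Finset.sum_neg_distrib]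
      refine Finset.sum_congr rfl fun l _ => ?_
      have := hd i l
      rw [hν]; field_simp
    have h3 : ∑ j ∈ S, Y j / (a i - b j) = ∑ l, Y l / (a i - b l) := by
      simp only [div_eq_mul_inv]; exact sumS _
    rw [h2] at h1
    rw [h3]
    have h4 : X i * (Y0 + ∑ l, Y l / (a i - b l)) = 0 := by linear_combination h1
    exact (mul_eq_zero.mp h4).resolve_left ((memR i).mp hi)
  have heq : ∀ j ∈ S, X0 + ∑ i ∈ R, X i / (b j - a i) = 0 := by
    intro j hj
    have h1 := hns j
    have h2 : ∑ k, ν k j * (a k - b j) = Y j * ∑ k, X k / (b j - a k) := by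
      rw [Finset.mul_sum]
      refine Finset.sum_congr rfl fun k _ => ?_
      have e1 := hd k j
      have e2 : b j - a k ≠ 0 := by
        intro h; exact e1 (by linear_combination -h)
      have e3 : b j - a k = -(a k - b j) := by ring
      rw [hν, e3]; field_simp
    have h3 : ∑ i ∈ R, X i / (b j - a i) = ∑ k, X k / (b j - a k) := by
      simp only [div_eq_mul_inv]; exact sumR _
    rw [h2] at h1
    rw [h3]
    have h4 : Y j * (X0 + ∑ k, X k / (b j - a k)) = 0 := by linear_combination h1
    exact (mul_eq_zero.mp h4).resolve_left ((memS j).mp hj)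
  have hXR : X0 ≠ 0 ∨ R.Nonempty := by
    rcases hX with h | ⟨k, hk⟩
    · exact Or.inl h
    · exact Or.inr ⟨k, (memR k).mpr hk⟩
  have hYS : Y0 ≠ 0 ∨ S.Nonempty := by
    rcases hY with h | ⟨k, hk⟩
    · exact Or.inl h
    · exact Or.inr ⟨k, (memS k).mpr hk⟩
  have hcard : S.card = R.card := by
    apply le_antisymm
    · exact card_le_of_roots a b D.ha D.hb R S X0 X (fun i hi => (memR i).mp hi) hXR D.hab heq
    · exact card_le_of_roots b a D.hb D.ha S R Y0 Y (fun i hi => (memS i).mp hi) hYS
        (fun i j => (D.hab j i).symm) heq'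
  have xeq : ∀ i ∈ R, X i * ∏ l ∈ R.erase i, (a i - a l) = X0 * ∏ j ∈ S, (a i - b j) :=
    fun i hi => x_eq a b D.hb R S hcard X0 X D.hab heq hi
  have yeq : ∀ j ∈ S, Y j * ∏ l ∈ S.erase j, (b j - b l) = Y0 * ∏ i ∈ R, (b j - a i) :=
    fun j hj => x_eq b a D.ha S R hcard.symm Y0 Y (fun i j => (D.hab j i).symm) heq' hj
  have hX0 : X0 ≠ 0 := by
    rcases hXR with h | ⟨i, hi⟩
    · exact h
    · intro h0
      have h1 := xeq i hi
      rw [h0, zero_mul] at h1
      refine mul_ne_zero ((memR i).mp hi) (Finset.prod_ne_zero_iff.mpr fun l hl => ?_) h1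
      rw [sub_ne_zero]
      intro h2
      exact (Finset.mem_erase.mp hl).1 (D.ha h2).symm
  have hY0 : Y0 ≠ 0 := by
    rcases hYS with h | ⟨i, hi⟩
    · exact h
    · intro h0
      have h1 := yeq i hi
      rw [h0, zero_mul] at h1
      refine mul_ne_zero ((memS i).mp hi) (Finset.prod_ne_zero_iff.mpr fun l hl => ?_) h1
      rw [sub_ne_zero]
      intro h2
      exact (Finset.mem_erase.mp hl).1 (D.hb h2).symm
  have hdouble := double_sum a b D.ha D.hb R S hcard X0 Y0 X Y D.hab heq heq'
  have hsum : ∑ k, ∑ l, ν k l = (R.card : F) * (X0 * Y0) := by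
    have h1 : ∑ i ∈ R, ∑ j ∈ S, X i * Y j / (a i - b j) ^ 2 =
        ∑ i, ∑ j, X i * Y j / (a i - b j) ^ 2 := by
      have h2 : ∀ i, ∑ j ∈ S, X i * Y j / (a i - b j) ^ 2 = X i * ∑ j, Y j / (a i - b j) ^ 2 := by
        intro i
        have h3 := sumS (fun j => X i / (a i - b j) ^ 2)
        calc ∑ j ∈ S, X i * Y j / (a i - b j) ^ 2 = ∑ j ∈ S, Y j * (X i / (a i - b j) ^ 2) :=
              Finset.sum_congr rfl fun j _ => by ring
          _ = ∑ j, Y j * (X i / (a i - b j) ^ 2) := h3
          _ = _ := by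
              rw [Finset.mul_sum]
              exact Finset.sum_congr rfl fun j _ => by ring
      rw [Finset.sum_congr rfl fun i _ => h2 i, sumR]
      refine Finset.sum_congr rfl fun i _ => ?_
      rw [Finset.mul_sum]
      exact Finset.sum_congr rfl fun j _ => by ring
    rw [h1] at hdouble
    have h4 : ∑ k, ∑ l, ν k l = -∑ i, ∑ j, X i * Y j / (a i - b j) ^ 2 := by
      rw [← Finset.sum_neg_distrib]
      refine Finset.sum_congr rfl fun k _ => ?_
      rw [← Finset.sum_neg_distrib]
      refine Finset.sum_congr rfl fun l _ => ?_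
      rw [hν]; ring
    rw [h4, hdouble]; ring
  rw [hsum] at hnn
  have hXY : X0 * Y0 ≠ 0 := mul_ne_zero hX0 hY0
  by_cases hoo : o ∈ R ∧ o ∈ S
  · -- impossible by positivity
    exfalso
    obtain ⟨hoR, hoS⟩ := hoo
    have h1 := wt_eq D R S X0 Y0 (X o) (Y o) hoR hoS (xeq o hoR) (yeq o hoS)
    have h2 : ν o o = X0 * Y0 * (wt o p q R S : F) := by
      have := hd o o
      rw [hν, h1]
      field_simp
    rw [h2] at hnn
    have h3 : (X0 * Y0) * (1 - (R.card : F) - (wt o p q R S : F)) = 0 := by
      linear_combination hnn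
    have h4 := (mul_eq_zero.mp h3).resolve_left hXY
    have h5 : ((R.card + wt o p q R S : ℕ) : F) = ((1 : ℕ) : F) := by
      push_cast; linear_combination -h4
    have h6 : R.card + wt o p q R S = 1 := Nat.cast_injective h5
    have h7 : 0 < R.card := Finset.card_pos.mpr ⟨o, hoR⟩
    have h8 := hpos R S
    omega
  · have h1 : ν o o = 0 := by
      have h2 : X o * Y o = 0 := by
        by_contra h3
        apply hoo
        exact ⟨(memR o).mpr (left_ne_zero_of_mul h3), (memS o).mpr (right_ne_zero_of_mul h3)⟩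
      rw [hν, h2]; simp
    rw [h1, zero_mul, add_zero] at hnn
    have h3 : (X0 * Y0) * (1 - (R.card : F)) = 0 := by linear_combination hnn
    have h4 := (mul_eq_zero.mp h3).resolve_left hXY
    have h5 : ((R.card : ℕ) : F) = ((1 : ℕ) : F) := by push_cast; linear_combination -h4
    have h6 : R.card = 1 := Nat.cast_injective h5
    obtain ⟨k, hk⟩ := Finset.card_eq_one.mp h6
    obtain ⟨l, hl⟩ := Finset.card_eq_one.mp (hcard.trans h6)
    have hkR : k ∈ R := by rw [hk]; exact Finset.mem_singleton_self _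
    have hlS : l ∈ S := by rw [hl]; exact Finset.mem_singleton_self _
    refine ⟨k, l, ?_, ?_, ?_⟩
    · intro h7
      apply hoo
      obtain ⟨rfl, rfl⟩ := Prod.mk.inj h7
      exact ⟨hkR, hlS⟩
    · intro i
      by_cases hik : i = k
      · subst hik
        have h8 := xeq i hkR
        rw [hk, hl, Finset.erase_singleton, Finset.prod_empty, Finset.prod_singleton, mul_one] at h8
        rw [if_pos rfl]; exact h8
      · rw [if_neg hik, mul_zero]
        by_contra h9
        have : i ∈ R := (memR i).mpr h9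
        rw [hk, Finset.mem_singleton] at this
        exact hik this
    · intro j
      by_cases hjl : j = l
      · subst hjl
        have h8 := yeq j hlS
        rw [hk, hl, Finset.erase_singleton, Finset.prod_empty, Finset.prod_singleton, mul_one] at h8
        rw [if_pos rfl, h8]; ring
      · rw [if_neg hjl, mul_zero]
        by_contra h9
        have : j ∈ S := (memS j).mpr h9
        rw [hl, Finset.mem_singleton] at this
        exact hjl this

/-- the points -/
def xs (a b : ι → F) (o : ι) (h : ℕ) : {e : ι × ι // e ≠ (o, o)} ⊕ Fin h → Option ι ⊕ Fin h → F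
  | Sum.inl e => xv a b h e.1.1 e.1.2
  | Sum.inr s => uv ι F s

/-- the points -/
def ys (a b : ι → F) (o : ι) (h : ℕ) : {e : ι × ι // e ≠ (o, o)} ⊕ Fin h → Option ι ⊕ Fin h → F
  | Sum.inl e => yv a b h e.1.1 e.1.2
  | Sum.inr s => uv ι F s

theorem pt_F {a b : ι → F} {o : ι} {p q : ι → ℕ} (D : Data a b o p q)
    (hpos : ∀ R S : Finset ι, wt o p q R S ≠ 0)
    (ν : (ι × ι) ⊕ Fin h → F) (x y : Option ι ⊕ Fin h → F) (hx : x ≠ 0) (hy : y ≠ 0)
    (hxy : ∀ j j', x j * y j' = comb a b o 1 ν j j') :
    ∃ s, (∃ c : F, ∀ j, x j = c * xs a b o h s j) ∧ ∃ c : F, ∀ j, y j = c * ys a b o h s j := by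
  by_cases hA : ∃ j, x (Sum.inl j) ≠ 0
  · obtain ⟨j0, hj0⟩ := hA
    have hyr : ∀ s, y (Sum.inr s) = 0 := by
      intro s
      have h1 := hxy (Sum.inl j0) (Sum.inr s)
      rw [comb_lr] at h1
      exact (mul_eq_zero.mp h1).resolve_left hj0
    obtain ⟨l0, hl0⟩ : ∃ l, y (Sum.inl l) ≠ 0 := by
      by_contra hcon
      push Not at hcon
      apply hy
      funext e
      rcases e with e | e
      · exact hcon e
      · exact hyr e
    have hxr : ∀ s, x (Sum.inr s) = 0 := by
      intro s
      have h1 := hxy (Sum.inr s) (Sum.inl l0)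
      rw [comb_rl] at h1
      exact (mul_eq_zero.mp h1).resolve_right hl0
    obtain ⟨k, l, hkl, h1, h2⟩ := class_main D (x (Sum.inl none)) (y (Sum.inl none))
      (fun k => x (Sum.inl (some k))) (fun l => y (Sum.inl (some l)))
      (by
        rcases j0 with _ | k
        · exact Or.inl hj0
        · exact Or.inr ⟨k, hj0⟩)
      (by
        rcases l0 with _ | k
        · exact Or.inl hl0
        · exact Or.inr ⟨k, hl0⟩) hpos (fun k l => ν (Sum.inl (k, l)))
      (fun k l => by rw [hxy, comb_ss]) (fun k => by rw [hxy, comb_sn])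
      (fun l => by rw [hxy, comb_ns]) (by rw [hxy, comb_nn])
    refine ⟨Sum.inl ⟨(k, l), hkl⟩, ⟨x (Sum.inl none), ?_⟩, ⟨y (Sum.inl none), ?_⟩⟩
    · intro j
      rcases j with (_ | i) | s
      · simp [xs, xv]
      · exact h1 i
      · simp [xs, xv, hxr]
    · intro j
      rcases j with (_ | i) | s
      · simp [ys, yv]
      · exact h2 i
      · simp [ys, yv, hyr]
  · push Not at hA
    obtain ⟨s, hs⟩ : ∃ s, x (Sum.inr s) ≠ 0 := by
      by_contra hcon
      push Not at hcon
      apply hx
      funext e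
      rcases e with e | e
      · exact hA e
      · exact hcon e
    have hyl : ∀ l, y (Sum.inl l) = 0 := by
      intro l
      have h1 := hxy (Sum.inr s) (Sum.inl l)
      rw [comb_rl] at h1
      exact (mul_eq_zero.mp h1).resolve_left hs
    have hyr : ∀ s', s ≠ s' → y (Sum.inr s') = 0 := by
      intro s' hss'
      have h1 := hxy (Sum.inr s) (Sum.inr s')
      rw [comb_rr, if_neg hss'] at h1
      exact (mul_eq_zero.mp h1).resolve_left hs
    have hys : y (Sum.inr s) ≠ 0 := by
      intro h0
      apply hy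
      funext e
      rcases e with e | e
      · exact hyl e
      · by_cases hse : s = e
        · rw [← hse]; exact h0
        · exact hyr e hse
    have hxr : ∀ s', s' ≠ s → x (Sum.inr s') = 0 := by
      intro s' hss'
      have h1 := hxy (Sum.inr s') (Sum.inr s)
      rw [comb_rr, if_neg hss'] at h1
      exact (mul_eq_zero.mp h1).resolve_right hys
    refine ⟨Sum.inr s, ⟨x (Sum.inr s), ?_⟩, ⟨y (Sum.inr s), ?_⟩⟩
    · intro j
      rcases j with j | s'
      · simp [xs, uv, hA]
      · by_cases h1 : s' = s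
        · subst h1; simp [xs, uv]
        · simp [xs, uv, h1, hxr s' h1]
    · intro j
      rcases j with j | s'
      · simp [ys, uv, hyl]
      · by_cases h1 : s' = s
        · subst h1; simp [ys, uv]
        · simp [ys, uv, h1, hyr s' (Ne.symm h1)]

theorem tan_F {a b : ι → F} {o : ι} {p q : ι → ℕ} (D : Data a b o p q) (t : F)
    (ν : (ι × ι) ⊕ Fin h → F) (s : {e : ι × ι // e ≠ (o, o)} ⊕ Fin h)
    (ξ η : Option ι ⊕ Fin h → F)
    (hxy : ∀ j j', ξ j * ys a b o h s j' + xs a b o h s j * η j' = comb a b o t ν j j') :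
    (∃ c : F, ∀ j, ξ j = c * xs a b o h s j) ∧ ∃ c : F, ∀ j, η j = c * ys a b o h s j := by
  rcases s with ⟨⟨k0, l0⟩, hne⟩ | s
  · have hd : ∀ k l, a k - b l ≠ 0 := fun k l => sub_ne D k l
    set d := a k0 - b l0 with hdd
    have hηr : ∀ s, η (Sum.inr s) = 0 := by
      intro s
      have h1 := hxy (Sum.inl none) (Sum.inr s)
      rw [comb_lr] at h1
      simpa [xs, ys, xv, yv] using h1
    have hξr : ∀ s, ξ (Sum.inr s) = 0 := by
      intro s
      have h1 := hxy (Sum.inr s) (Sum.inl none)
      rw [comb_rl] at h1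
      simpa [xs, ys, xv, yv] using h1
    have hss : ∀ k l, ξ (Sum.inl (some k)) * (if l = l0 then -d else 0) +
        (if k = k0 then d else 0) * η (Sum.inl (some l)) = -(ν (Sum.inl (k, l)) * (a k - b l) ^ 2) := by
      intro k l
      have h1 := hxy (Sum.inl (some k)) (Sum.inl (some l))
      rw [comb_ss] at h1
      exact h1
    have hsn : ∀ k, ξ (Sum.inl (some k)) + (if k = k0 then d else 0) * η (Sum.inl none) =
        ∑ l, ν (Sum.inl (k, l)) * (a k - b l) := by
      intro k
      have h1 := hxy (Sum.inl (some k)) (Sum.inl none)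
      rw [comb_sn] at h1
      have h2 : ys a b o h (Sum.inl ⟨(k0, l0), hne⟩) (Sum.inl none) = 1 := rfl
      rw [h2, mul_one] at h1
      exact h1
    have hns : ∀ l, ξ (Sum.inl none) * (if l = l0 then -d else 0) + η (Sum.inl (some l)) =
        -∑ k, ν (Sum.inl (k, l)) * (a k - b l) := by
      intro l
      have h1 := hxy (Sum.inl none) (Sum.inl (some l))
      rw [comb_ns] at h1
      have h2 : xs a b o h (Sum.inl ⟨(k0, l0), hne⟩) (Sum.inl none) = 1 := rfl
      rw [h2, one_mul] at h1
      exact h1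
    -- vanishing of most coefficients
    have hν1 : ∀ k l, k ≠ k0 → l ≠ l0 → ν (Sum.inl (k, l)) = 0 := by
      intro k l hk hl
      have h1 := hss k l
      rw [if_neg hk, if_neg hl, mul_zero, zero_mul, add_zero] at h1
      exact (mul_eq_zero.mp (neg_eq_zero.mp h1.symm)).resolve_right (pow_ne_zero _ (hd k l))
    have hξ : ∀ k, k ≠ k0 → ξ (Sum.inl (some k)) = 0 := by
      intro k hk
      have h1 := hsn k
      rw [if_neg hk, zero_mul, add_zero, Finset.sum_eq_single l0 (fun l _ hl => by
        rw [hν1 k l hk hl, zero_mul]) (fun h => absurd (Finset.mem_univ _) h)] at h1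
      have h2 := hss k l0
      rw [if_neg hk, if_pos rfl, zero_mul, add_zero] at h2
      have e := hd k l0
      have h3 : ξ (Sum.inl (some k)) * (a k - a k0) = 0 := by
        have h4 : ξ (Sum.inl (some k)) * (a k - b l0) = ξ (Sum.inl (some k)) * d := by
          rw [h1] at h2 ⊢
          linear_combination h2
        rw [hdd] at h4
        linear_combination h4
      refine (mul_eq_zero.mp h3).resolve_right ?_
      intro h5
      exact hk (D.ha (sub_eq_zero.mp h5))
    have hη : ∀ l, l ≠ l0 → η (Sum.inl (some l)) = 0 := by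
      intro l hl
      have h1 := hns l
      rw [if_neg hl, mul_zero, zero_add, Finset.sum_eq_single k0 (fun k _ hk => by
        rw [hν1 k l hk hl, zero_mul]) (fun h => absurd (Finset.mem_univ _) h)] at h1
      have h2 := hss k0 l
      rw [if_neg hl, if_pos rfl, mul_zero, zero_add] at h2
      have e := hd k0 l
      have h3 : η (Sum.inl (some l)) * (b l - b l0) = 0 := by
        have h4 : η (Sum.inl (some l)) * (a k0 - b l) = η (Sum.inl (some l)) * d := by
          rw [h1] at h2 ⊢
          linear_combination -h2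
        rw [hdd] at h4
        linear_combination -h4
      refine (mul_eq_zero.mp h3).resolve_right ?_
      intro h5
      exact hl (D.hb (sub_eq_zero.mp h5))
    have hνk : ∀ l, l ≠ l0 → ν (Sum.inl (k0, l)) = 0 := by
      intro l hl
      have h2 := hss k0 l
      rw [if_neg hl, if_pos rfl, mul_zero, zero_add, hη l hl, mul_zero] at h2
      exact (mul_eq_zero.mp (neg_eq_zero.mp h2.symm)).resolve_right (pow_ne_zero _ (hd k0 l))
    have hνl : ∀ k, k ≠ k0 → ν (Sum.inl (k, l0)) = 0 := by
      intro k hk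
      have h2 := hss k l0
      rw [if_neg hk, if_pos rfl, zero_mul, add_zero, hξ k hk, zero_mul] at h2
      exact (mul_eq_zero.mp (neg_eq_zero.mp h2.symm)).resolve_right (pow_ne_zero _ (hd k l0))
    have hd0 : d ≠ 0 := hd k0 l0
    have e1 := hss k0 l0
    rw [if_pos rfl, if_pos rfl] at e1
    have e2 := hsn k0
    rw [if_pos rfl, Finset.sum_eq_single l0 (fun l _ hl => by
        rw [hνk l hl, zero_mul]) (fun h => absurd (Finset.mem_univ _) h)] at e2
    have e3 := hns l0
    rw [if_pos rfl, Finset.sum_eq_single k0 (fun k _ hk => by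
        rw [hνl k hk, zero_mul]) (fun h => absurd (Finset.mem_univ _) h)] at e3
    rw [← hdd] at e1 e2 e3
    have e4 : η (Sum.inl (some l0)) = -d * η (Sum.inl none) := by
      apply mul_left_cancel₀ hd0
      linear_combination e1 + d * e2
    have e5 : ξ (Sum.inl (some k0)) = d * ξ (Sum.inl none) := by
      apply mul_left_cancel₀ hd0
      linear_combination (-1 : F) * e1 + d * e3
    refine ⟨⟨ξ (Sum.inl none), ?_⟩, ⟨η (Sum.inl none), ?_⟩⟩
    · intro j
      rcases j with (_ | i) | s
      · simp [xs, xv]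
      · show ξ (Sum.inl (some i)) = ξ (Sum.inl none) * (if i = k0 then a k0 - b l0 else 0)
        by_cases hi : i = k0
        · rw [if_pos hi, hi, e5, hdd]; ring
        · rw [if_neg hi, mul_zero]; exact hξ i hi
      · simp [xs, xv, hξr]
    · intro j
      rcases j with (_ | i) | s
      · simp [ys, yv]
      · show η (Sum.inl (some i)) = η (Sum.inl none) * (if i = l0 then -(a k0 - b l0) else 0)
        by_cases hi : i = l0
        · rw [if_pos hi, hi, e4, hdd]; ring
        · rw [if_neg hi, mul_zero]; exact hη i hi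
      · simp [ys, yv, hηr]
  · have hξl : ∀ j, ξ (Sum.inl j) = 0 := by
      intro j
      have h1 := hxy (Sum.inl j) (Sum.inr s)
      rw [comb_lr] at h1
      simpa [xs, ys, uv] using h1
    have hηl : ∀ j, η (Sum.inl j) = 0 := by
      intro j
      have h1 := hxy (Sum.inr s) (Sum.inl j)
      rw [comb_rl] at h1
      simpa [xs, ys, uv] using h1
    have hξr : ∀ s', s' ≠ s → ξ (Sum.inr s') = 0 := by
      intro s' hs'
      have h1 := hxy (Sum.inr s') (Sum.inr s)
      rw [comb_rr, if_neg hs'] at h1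
      simpa [xs, ys, uv, hs'] using h1
    have hηr : ∀ s', s' ≠ s → η (Sum.inr s') = 0 := by
      intro s' hs'
      have h1 := hxy (Sum.inr s) (Sum.inr s')
      rw [comb_rr, if_neg (Ne.symm hs')] at h1
      simpa [xs, ys, uv, hs'] using h1
    refine ⟨⟨ξ (Sum.inr s), ?_⟩, ⟨η (Sum.inr s), ?_⟩⟩
    · intro j
      rcases j with j | s'
      · simp [xs, uv, hξl]
      · by_cases h1 : s' = s
        · subst h1; simp [xs, uv]
        · simp [xs, uv, h1, hξr s' h1]
    · intro j
      rcases j with j | s'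
      · simp [ys, uv, hηl]
      · by_cases h1 : s' = s
        · subst h1; simp [ys, uv]
        · simp [ys, uv, h1, hηr s' h1]

end Pool.Agent.H875.DK
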