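import Mathlib
import Pool.Agent.H875.DK.Val

/-!
The valuative argument, main step.
-/

namespace Pool.Agent.H875.DK

open IsLocalRing

variable {L : Type} [Field L] {B : ValuationSubring L} {α β γ ι : Type} [Fintype α]
  {U : α → β → γ → L} {κ : Type} [Field κ] {N : α → β → γ → ℂ} {x : ι → β → ℂ} {y : ι → γ → ℂ}
  {ρ : B →+* κ} {σ : ℂ →+* κ}

theorem Red.div {x x' : L} {z z' : κ} (h : Red ρ x z) (h' : Red ρ x' z') (hz : z' ≠ 0)
    (hloc : ∀ b : B, ρ b ≠ 0 → (b : L)⁻¹ ∈ B) : Red ρ (x / x') (z / z') := by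
  rw [div_eq_mul_inv, div_eq_mul_inv]
  exact h.mul (h'.inv hz hloc)

theorem main_val [Finite β] [Finite γ] [Fintype ι] (hG : Good N x y)
    (hU : ∀ i j l, Red ρ (U i j l) (σ (N i j l)))
    (hloc : ∀ b : B, ρ b ≠ 0 → (b : L)⁻¹ ∈ B) (hcard : Fintype.card ι < Fintype.card α)
    (u : Fin (Fintype.card α) → α → L) (v : Fin (Fintype.card α) → β → L)
    (w : Fin (Fintype.card α) → γ → L)
    (hdec : ∀ i j l, U i j l = ∑ p, u p i * v p j * w p l) : False := by
  classical
  have hN : ∀ ν : α → κ, (∀ j l, ∑ i, ν i * σ (N i j l) = 0) → ν = 0 := hG.lin κ σ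
  -- the linear map of coefficients
  let F : (α → L) →ₗ[L] (Fin (Fintype.card α) → L) :=
    { toFun := fun ν p => ∑ i, ν i * u p i
      map_add' := by
        intro a b; funext p
        simp only [Pi.add_apply, add_mul, Finset.sum_add_distrib]
      map_smul' := by
        intro c a; funext p
        simp only [Pi.smul_apply, smul_eq_mul, RingHom.id_apply, Finset.mul_sum, mul_assoc] }
  have hFU : ∀ (ν : α → L) j l, ∑ i, ν i * U i j l = ∑ p, F ν p * (v p j * w p l) := by
    intro ν j l
    simp only [hdec, Finset.mul_sum]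
    rw [Finset.sum_comm]
    refine Finset.sum_congr rfl fun p _ => ?_
    show _ = (∑ i, ν i * u p i) * (v p j * w p l)
    rw [Finset.sum_mul]
    refine Finset.sum_congr rfl fun i _ => ?_
    ring
  have hFinj : Function.Injective F := by
    rw [← LinearMap.ker_eq_bot, LinearMap.ker_eq_bot']
    intro ν hν
    apply lin_indep hU hN
    intro j l
    rw [hFU, hν]
    simp
  have hFsurj : Function.Surjective F := by
    rw [← LinearMap.injective_iff_surjective_of_finrank_eq_finrank]
    · exact hFinj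
    · simp
  have hsingle : ∀ p, ∃ ν : α → L, F ν = Pi.single p 1 := fun p => hFsurj _
  choose ν hν using hsingle
  have hνU : ∀ p j l, ∑ i, ν p i * U i j l = v p j * w p l := by
    intro p j l
    rw [hFU, hν, Finset.sum_eq_single p]
    · rw [Pi.single_eq_same, one_mul]
    · intro q _ hq
      rw [Pi.single_eq_of_ne hq, zero_mul]
    · intro h; exact absurd (Finset.mem_univ _) h
  -- distinct products are not proportional
  have hprop : ∀ p q, p ≠ q → ∀ a b : L, a ≠ 0 → (∀ j l, a * (v p j * w p l) = b * (v q j * w q l)) →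
      False := by
    intro p q hpq a b ha h
    have h1 : a • ν p - b • ν q = 0 := by
      apply lin_indep hU hN
      intro j l
      have h2 : ∑ i, (a • ν p - b • ν q) i * U i j l =
          a * ∑ i, ν p i * U i j l - b * ∑ i, ν q i * U i j l := by
        rw [Finset.mul_sum, Finset.mul_sum, ← Finset.sum_sub_distrib]
        refine Finset.sum_congr rfl fun i _ => ?_
        simp only [Pi.sub_apply, Pi.smul_apply, smul_eq_mul]
        ring
      rw [h2, hνU, hνU, h, sub_self]
    have h3 : F (a • ν p - b • ν q) = 0 := by rw [h1, map_zero]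
    rw [map_sub, map_smul, map_smul, hν, hν] at h3
    have h4 := congrFun h3 p
    simp only [Pi.sub_apply, Pi.smul_apply, Pi.single_eq_same, smul_eq_mul, mul_one,
      Pi.single_eq_of_ne hpq, mul_zero, sub_zero, Pi.zero_apply] at h4
    exact ha h4
  have hv0 : ∀ p, v p ≠ 0 := by
    intro p h
    have h1 : ν p = 0 := by
      apply lin_indep hU hN
      intro j l
      rw [hνU, h]; simp
    have h2 := hν p
    rw [h1, map_zero] at h2
    have := congrFun h2 p
    simp at this
  have hw0 : ∀ p, w p ≠ 0 := by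
    intro p h
    have h1 : ν p = 0 := by
      apply lin_indep hU hN
      intro j l
      rw [hνU, h]; simp
    have h2 := hν p
    rw [h1, map_zero] at h2
    have := congrFun h2 p
    simp at this
  -- each product reduces to one of the given points
  have hs : ∀ p, ∃ s : ι, ∀ (b : β) (c : γ), x s b ≠ 0 → y s c ≠ 0 →
      v p b ≠ 0 ∧ w p c ≠ 0 ∧ (∀ j, Red ρ (v p j / v p b) (σ (x s j) / σ (x s b))) ∧
        ∀ l, Red ρ (w p l / w p c) (σ (y s l) / σ (y s c)) := by
    intro p
    obtain ⟨b0, hb0, hbdiv⟩ := exists_norm B (v p) (hv0 p)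
    obtain ⟨c0, hc0, hcdiv⟩ := exists_norm B (w p) (hw0 p)
    have hexv : ∀ j, ∃ z, Red ρ (v p j / v p b0) z := fun j => Red.of_mem (hbdiv j)
    have hexw : ∀ l, ∃ z, Red ρ (w p l / w p c0) z := fun l => Red.of_mem (hcdiv l)
    choose zv hzv using hexv
    choose zw hzw using hexw
    have hzvb : zv b0 = 1 := by
      have := hzv b0
      rw [div_self hb0] at this
      exact this.unique Red.one
    have hzwc : zw c0 = 1 := by
      have := hzw c0
      rw [div_self hc0] at this
      exact this.unique Red.one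
    set ν' : α → L := fun i => ν p i / (v p b0 * w p c0) with hν'
    have hν'U : ∀ j l, ∑ i, ν' i * U i j l = (v p j / v p b0) * (w p l / w p c0) := by
      intro j l
      have h1 : ∑ i, ν' i * U i j l = (∑ i, ν p i * U i j l) / (v p b0 * w p c0) := by
        rw [Finset.sum_div]
        refine Finset.sum_congr rfl fun i _ => ?_
        rw [hν']; ring
      rw [h1, hνU, mul_div_mul_comm]
    have hint : ∀ i, ν' i ∈ B := by
      apply integral_coeff hU hloc hN
      intro j l
      rw [hν'U]
      exact B.mul_mem _ _ (hbdiv j) (hcdiv l)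
    have hexn : ∀ i, ∃ z, Red ρ (ν' i) z := fun i => Red.of_mem (hint i)
    choose zn hzn using hexn
    obtain ⟨s, ⟨c1, hc1⟩, ⟨c2, hc2⟩⟩ := hG.pt κ σ zn zv zw
      (by intro h; rw [h] at hzvb; exact zero_ne_one hzvb)
      (by intro h; rw [h] at hzwc; exact zero_ne_one hzwc) (by
        intro j l
        have h1 : Red ρ (∑ i, ν' i * U i j l) (∑ i, zn i * σ (N i j l)) :=
          Red.sum _ _ _ fun i _ => (hzn i).mul (hU i j l)
        rw [hν'U] at h1
        exact ((hzv j).mul (hzw l)).unique h1)
    have hc1' : c1 ≠ 0 := by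
      rintro rfl
      rw [hc1 b0, zero_mul] at hzvb
      exact zero_ne_one hzvb
    have hc2' : c2 ≠ 0 := by
      rintro rfl
      rw [hc2 c0, zero_mul] at hzwc
      exact zero_ne_one hzwc
    refine ⟨s, fun b c hb hc => ?_⟩
    have hσb : σ (x s b) ≠ 0 := (map_ne_zero σ).mpr hb
    have hσc : σ (y s c) ≠ 0 := (map_ne_zero σ).mpr hc
    have hzb : zv b ≠ 0 := by rw [hc1]; exact mul_ne_zero hc1' hσb
    have hzc : zw c ≠ 0 := by rw [hc2]; exact mul_ne_zero hc2' hσc
    have hvb : v p b ≠ 0 := by
      intro h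
      apply hzb
      have := hzv b
      rw [h, zero_div] at this
      exact this.unique Red.zero
    have hwc : w p c ≠ 0 := by
      intro h
      apply hzc
      have := hzw c
      rw [h, zero_div] at this
      exact this.unique Red.zero
    refine ⟨hvb, hwc, fun j => ?_, fun l => ?_⟩
    · have h1 := (hzv j).div (hzv b) hzb hloc
      rw [div_div_div_cancel_right₀ hb0] at h1
      rwa [hc1 j, hc1 b, mul_div_mul_left _ _ hc1'] at h1
    · have h1 := (hzw l).div (hzw c) hzc hloc
      rw [div_div_div_cancel_right₀ hc0] at h1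
      rwa [hc2 l, hc2 c, mul_div_mul_left _ _ hc2'] at h1
  choose s hs' using hs
  -- pigeonhole
  obtain ⟨p, q, hpq, hspq⟩ := Fintype.exists_ne_map_eq_of_card_lt s (by simpa using hcard)
  obtain ⟨b, hb⟩ := Function.ne_iff.mp (hG.hx (s p))
  obtain ⟨c, hc⟩ := Function.ne_iff.mp (hG.hy (s p))
  obtain ⟨hvb, hwc, hX, hY⟩ := hs' p b c hb hc
  obtain ⟨hvb', hwc', hX', hY'⟩ := hs' q b c (by rw [← hspq]; exact hb) (by rw [← hspq]; exact hc)
  rw [← hspq] at hX' hY'
  set s0 := s p with hs0
  have hσb : σ (x s0 b) ≠ 0 := (map_ne_zero σ).mpr hb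
  have hσc : σ (y s0 c) ≠ 0 := (map_ne_zero σ).mpr hc
  -- the difference
  let δ : β ⊕ γ → L := Sum.elim (fun j => v p j / v p b - v q j / v q b)
    (fun l => w p l / w p c - w q l / w q c)
  have hδ : δ ≠ 0 := by
    intro h
    have h1 : ∀ j, v p j / v p b = v q j / v q b := fun j => sub_eq_zero.mp (congrFun h (Sum.inl j))
    have h2 : ∀ l, w p l / w p c = w q l / w q c := fun l => sub_eq_zero.mp (congrFun h (Sum.inr l))
    refine hprop p q hpq ((v p b * w p c)⁻¹) ((v q b * w q c)⁻¹)
      (inv_ne_zero (mul_ne_zero hvb hwc)) fun j l => ?_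
    have h3 : (v p b * w p c)⁻¹ * (v p j * w p l) = (v p j / v p b) * (w p l / w p c) := by
      field_simp
    have h4 : (v q b * w q c)⁻¹ * (v q j * w q l) = (v q j / v q b) * (w q l / w q c) := by
      field_simp
    rw [h3, h4, h1, h2]
  obtain ⟨e0, he0, hediv⟩ := exists_norm B δ hδ
  have hexδ : ∀ e, ∃ z, Red ρ (δ e / δ e0) z := fun e => Red.of_mem (hediv e)
  choose z hz using hexδ
  have hz0 : z e0 = 1 := by
    have := hz e0
    rw [div_self he0] at this
    exact this.unique Red.one
  set ν' : α → L := fun i => (ν p i / (v p b * w p c) - ν q i / (v q b * w q c)) / δ e0 with hν'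
  have hν'U : ∀ j l, ∑ i, ν' i * U i j l =
      (δ (Sum.inl j) / δ e0) * (w p l / w p c) + (v q j / v q b) * (δ (Sum.inr l) / δ e0) := by
    intro j l
    have h1 : ∑ i, ν' i * U i j l = ((∑ i, ν p i * U i j l) / (v p b * w p c) -
        (∑ i, ν q i * U i j l) / (v q b * w q c)) / δ e0 := by
      rw [Finset.sum_div, Finset.sum_div, ← Finset.sum_sub_distrib, Finset.sum_div]
      refine Finset.sum_congr rfl fun i _ => ?_
      rw [hν']; ring
    rw [h1, hνU, hνU]
    show _ = ((v p j / v p b - v q j / v q b) / δ e0) * (w p l / w p c) + (v q j / v q b) *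
      ((w p l / w p c - w q l / w q c) / δ e0)
    field_simp
    ring
  have hint : ∀ i, ν' i ∈ B := by
    apply integral_coeff hU hloc hN
    intro j l
    rw [hν'U]
    obtain ⟨hh1, -⟩ := hY l
    obtain ⟨hh2, -⟩ := hX' j
    exact B.add_mem _ _ (B.mul_mem _ _ (hediv _) hh1) (B.mul_mem _ _ hh2 (hediv _))
  have hexn : ∀ i, ∃ z, Red ρ (ν' i) z := fun i => Red.of_mem (hint i)
  choose zn hzn using hexn
  obtain ⟨⟨c1, hc1⟩, ⟨c2, hc2⟩⟩ := hG.tan κ σ zn s0 (fun j => z (Sum.inl j) / σ (y s0 c))
    (fun l => z (Sum.inr l) / σ (x s0 b)) (by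
      intro j l
      have h1 : Red ρ (∑ i, ν' i * U i j l) (∑ i, zn i * σ (N i j l)) :=
        Red.sum _ _ _ fun i _ => (hzn i).mul (hU i j l)
      rw [hν'U] at h1
      have h2 := ((hz (Sum.inl j)).mul (hY l)).add ((hX' j).mul (hz (Sum.inr l)))
      have h3 := h2.unique h1
      rw [← h3]
      ring)
  have hzb : z (Sum.inl b) = 0 := by
    have h1 := hz (Sum.inl b)
    have h2 : δ (Sum.inl b) = 0 := by
      show v p b / v p b - v q b / v q b = 0
      rw [div_self hvb, div_self hvb', sub_self]
    rw [h2, zero_div] at h1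
    exact h1.unique Red.zero
  have hzc : z (Sum.inr c) = 0 := by
    have h1 := hz (Sum.inr c)
    have h2 : δ (Sum.inr c) = 0 := by
      show w p c / w p c - w q c / w q c = 0
      rw [div_self hwc, div_self hwc', sub_self]
    rw [h2, zero_div] at h1
    exact h1.unique Red.zero
  have hc10 : c1 = 0 := by
    have h1 := hc1 b
    simp only [hzb, zero_div] at h1
    exact (mul_eq_zero.mp h1.symm).resolve_right hσb
  have hc20 : c2 = 0 := by
    have h1 := hc2 c
    simp only [hzc, zero_div] at h1
    exact (mul_eq_zero.mp h1.symm).resolve_right hσc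
  have hzl : ∀ j, z (Sum.inl j) = 0 := by
    intro j
    have h1 := hc1 j
    rw [hc10, zero_mul, div_eq_zero_iff] at h1
    exact h1.resolve_right hσc
  have hzr : ∀ l, z (Sum.inr l) = 0 := by
    intro l
    have h1 := hc2 l
    rw [hc20, zero_mul, div_eq_zero_iff] at h1
    exact h1.resolve_right hσb
  rcases e0 with e0 | e0
  · rw [hzl] at hz0; exact zero_ne_one hz0
  · rw [hzr] at hz0; exact zero_ne_one hz0

end Pool.Agent.H875.DK
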