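import Mathlib
import Pool.Agent.H875.DK.Val2

/-!
A tensor with good slices does not lie on the secant variety: there is a polynomial vanishing on all
tensors of rank at most `k` and not at the given tensor.
-/

namespace Pool.Agent.H875.DK

open IsLocalRing MvPolynomial

variable {α β γ ι : Type} [Fintype α]

theorem exists_poly [Fintype β] [Fintype γ] [Fintype ι] {N : α → β → γ → ℂ} {x : ι → β → ℂ}
    {y : ι → γ → ℂ} (hG : Good N x y) (hcard : Fintype.card ι < Fintype.card α) :
    ∃ f : MvPolynomial (α × β × γ) ℂ,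
      (∀ T : α → β → γ → ℂ, Rk (Fintype.card α) T → eval (fun e => T e.1 e.2.1 e.2.2) f = 0) ∧
      eval (fun e => N e.1 e.2.1 e.2.2) f ≠ 0 := by
  classical
  by_contra hcon
  push Not at hcon
  set k := Fintype.card α with hk
  let Par : Type := (Fin k × α) ⊕ (Fin k × β) ⊕ (Fin k × γ)
  let P : Type := MvPolynomial Par ℂ
  let L : Type := FractionRing P
  let u : Fin k → α → P := fun p i => X (Sum.inl (p, i))
  let v : Fin k → β → P := fun p j => X (Sum.inr (Sum.inl (p, j)))
  let w : Fin k → γ → P := fun p l => X (Sum.inr (Sum.inr (p, l)))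
  let Us : α × β × γ → P := fun e => ∑ p, u p e.1 * v p e.2.1 * w p e.2.2
  let φ : MvPolynomial (α × β × γ) ℂ →+* P := (aeval Us : MvPolynomial (α × β × γ) ℂ →ₐ[ℂ] P).toRingHom
  let φL : MvPolynomial (α × β × γ) ℂ →+* L := (algebraMap P L).comp φ
  let eN : MvPolynomial (α × β × γ) ℂ →+* ℂ := eval (fun e => N e.1 e.2.1 e.2.2)
  have hker : ∀ g, φL g = 0 → eN g = 0 := by
    intro g hg
    have h1 : φ g = 0 := by
      have : Function.Injective (algebraMap P L) := IsFractionRing.injective P L
      apply this
      rw [map_zero]; exact hg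
    apply hcon
    rintro T ⟨a, b, c, hT⟩
    let pt : Par → ℂ := fun q => match q with
      | Sum.inl q => a q.1 q.2
      | Sum.inr (Sum.inl q) => b q.1 q.2
      | Sum.inr (Sum.inr q) => c q.1 q.2
    have h2 : eval (fun e : α × β × γ => T e.1 e.2.1 e.2.2) g = eval pt (φ g) := by
      have h3 : (eval pt).comp φ = eval (fun e : α × β × γ => T e.1 e.2.1 e.2.2) := by
        apply MvPolynomial.ringHom_ext
        · intro r
          show eval pt (aeval Us (C r)) = eval _ (C r)
          rw [aeval_C, eval_C]
          exact eval_C r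
        · intro e
          show eval pt (aeval Us (X e)) = eval _ (X e)
          rw [aeval_X, eval_X, hT]
          show eval pt (∑ p, u p e.1 * v p e.2.1 * w p e.2.2) = _
          rw [map_sum]
          refine Finset.sum_congr rfl fun p _ => ?_
          rw [map_mul, map_mul]
          show eval pt (X _) * eval pt (X _) * eval pt (X _) = _
          rw [eval_X, eval_X, eval_X]
      rw [← h3]; rfl
    rw [h2, h1, map_zero]
  let A : Subring L := φL.range
  let I : Ideal A := Ideal.map φL.rangeRestrict (RingHom.ker eN)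
  have hI : I ≠ ⊤ := by
    intro h
    have h1 : (1 : A) ∈ I := by rw [h]; trivial
    rw [Ideal.mem_map_iff_of_surjective _ φL.rangeRestrict_surjective] at h1
    obtain ⟨g, hg, hg1⟩ := h1
    have h2 : φL (g - 1) = 0 := by
      rw [map_sub, map_one, sub_eq_zero]
      exact congrArg Subtype.val hg1
    have h3 := hker _ h2
    rw [map_sub, map_one, (RingHom.mem_ker).mp hg] at h3
    norm_num at h3
  obtain ⟨B, hAB, hIB⟩ := Ideal.image_subset_nonunits_valuationSubring I hI
  have hmem : ∀ g, φL g ∈ B := fun g => hAB ⟨g, rfl⟩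
  let κ : Type := ResidueField B
  let ρ : B →+* κ := residue B
  have hloc : ∀ b : B, ρ b ≠ 0 → (b : L)⁻¹ ∈ B := by
    intro b hb
    have h1 : IsUnit b := (residue_ne_zero_iff_isUnit b).mp hb
    obtain ⟨c, hc⟩ := h1.exists_right_inv
    have h2 : (b : L) * (c : L) = 1 := congrArg Subtype.val hc
    rw [inv_eq_of_mul_eq_one_right h2]
    exact c.2
  let cB : ℂ →+* B := (φL.comp (C : ℂ →+* MvPolynomial (α × β × γ) ℂ)).codRestrict B
    (fun c => hmem _)
  let σ : ℂ →+* κ := ρ.comp cB
  have hU : ∀ i j l, Red ρ (φL (X (i, j, l))) (σ (N i j l)) := by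
    intro i j l
    refine ⟨hmem _, ?_⟩
    have h1 : φL (X (i, j, l) - C (N i j l)) ∈ B.nonunits := by
      apply hIB
      refine ⟨φL.rangeRestrict (X (i, j, l) - C (N i j l)), ?_, rfl⟩
      apply Ideal.mem_map_of_mem
      rw [RingHom.mem_ker]
      show eval _ (X (i, j, l) - C (N i j l)) = 0
      rw [map_sub, eval_X, eval_C, sub_self]
    rw [ValuationSubring.mem_nonunits_iff_exists_mem_maximalIdeal] at h1
    obtain ⟨h2, h3⟩ := h1
    rw [← residue_eq_zero_iff] at h3
    have h4 : (⟨φL (X (i, j, l) - C (N i j l)), h2⟩ : B) =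
        ⟨φL (X (i, j, l)), hmem _⟩ - cB (N i j l) := by
      apply Subtype.ext
      show φL (X (i, j, l) - C (N i j l)) = φL (X (i, j, l)) - φL (C (N i j l))
      rw [map_sub]
    rw [h4, map_sub, sub_eq_zero] at h3
    exact h3
  refine main_val (U := fun i j l => φL (X (i, j, l))) hG hU hloc hcard
    (fun p i => algebraMap P L (u p i)) (fun p j => algebraMap P L (v p j))
    (fun p l => algebraMap P L (w p l)) ?_
  intro i j l
  show algebraMap P L (aeval Us (X (i, j, l))) = _
  rw [aeval_X]
  show algebraMap P L (∑ p, u p i * v p j * w p l) = _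
  rw [map_sum]
  refine Finset.sum_congr rfl fun p _ => ?_
  rw [map_mul, map_mul]

end Pool.Agent.H875.DK
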