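import Mathlib
import Pool.Agent.H875.DK.Core
import Pool.Agent.H875.DK.Class

/-!
The special values of the parameter, and the Good data.
-/

set_option linter.unusedSectionVars false

namespace Pool.Agent.H875.DK

variable {ι : Type} [Fintype ι] [DecidableEq ι] {h : ℕ}

theorem map_xv {F K : Type*} [Field F] [Field K] (σ : F →+* K) (a b : ι → F) (k l : ι)
    (j : Option ι ⊕ Fin h) : σ (xv a b h k l j) = xv (fun i => σ (a i)) (fun i => σ (b i)) h k l j := by
  rcases j with (_ | i) | s
  · simp [xv]
  · simp only [xv]; split_ifs <;> simp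
  · simp [xv]

theorem map_yv {F K : Type*} [Field F] [Field K] (σ : F →+* K) (a b : ι → F) (k l : ι)
    (j : Option ι ⊕ Fin h) : σ (yv a b h k l j) = yv (fun i => σ (a i)) (fun i => σ (b i)) h k l j := by
  rcases j with (_ | i) | s
  · simp [yv]
  · simp only [yv]; split_ifs <;> simp
  · simp [yv]

theorem map_zv {F K : Type*} [Field F] [Field K] (σ : F →+* K)
    (j : Option ι ⊕ Fin h) : σ (zv ι F h j) = zv ι K h j := by
  rcases j with (_ | i) | s <;> simp [zv]

theorem map_uv {F K : Type*} [Field F] [Field K] (σ : F →+* K) (s : Fin h)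
    (j : Option ι ⊕ Fin h) : σ (uv ι F s j) = uv ι K s j := by
  rcases j with j | s'
  · simp [uv]
  · simp only [uv]; split_ifs <;> simp

theorem map_Nt {F K : Type*} [Field F] [Field K] (σ : F →+* K) (a b : ι → F) (o : ι) (t : F)
    (e : (ι × ι) ⊕ Fin h) (j j' : Option ι ⊕ Fin h) :
    σ (Nt a b o t h e j j') = Nt (fun i => σ (a i)) (fun i => σ (b i)) o (σ t) h e j j' := by
  rcases e with e | s
  · simp only [Nt]
    rw [map_add, map_mul, map_xv, map_yv]
    congr 1
    split_ifs
    · rw [map_mul, map_mul, map_zv, map_zv]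
    · simp
  · simp only [Nt]
    rw [map_mul, map_uv, map_uv]

theorem Data.map {F K : Type*} [Field F] [Field K] (σ : F →+* K) {a b : ι → F} {o : ι} {p q : ι → ℕ}
    (D : Data a b o p q) : Data (fun i => σ (a i)) (fun i => σ (b i)) o p q where
  ha := σ.injective.comp D.ha
  hb := σ.injective.comp D.hb
  hab i j hij := D.hab i j (σ.injective hij)
  hq c hc := by
    have := congrArg σ (D.hq c hc)
    simpa using this
  hp c hc := by
    have := congrArg σ (D.hp c hc)
    simpa using this

theorem good {a b : ι → ℂ} {o : ι} {p q : ι → ℕ} (D : Data a b o p q)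
    (hpos : ∀ R S : Finset ι, wt o p q R S ≠ 0) :
    Good (Nt a b o 1 h) (xs a b o h) (ys a b o h) where
  lin κ _ σ ν hν := by
    haveI : CharZero κ := charZero_of_injective_ringHom σ.injective
    apply lin_F (D.map σ) 1 ν
    intro j j'
    unfold comb
    rw [← hν j j']
    refine Finset.sum_congr rfl fun i _ => ?_
    rw [map_Nt, map_one]
  pt κ _ σ ν x' y' hx' hy' hxy := by
    haveI : CharZero κ := charZero_of_injective_ringHom σ.injective
    obtain ⟨s, ⟨c, hc⟩, ⟨c', hc'⟩⟩ := pt_F (D.map σ) hpos ν x' y' hx' hy' (by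
      intro j j'
      rw [hxy j j']
      unfold comb
      refine Finset.sum_congr rfl fun i _ => ?_
      rw [map_Nt, map_one])
    refine ⟨s, ⟨c, fun j => ?_⟩, ⟨c', fun j => ?_⟩⟩
    · rw [hc j]
      rcases s with s | s
      · simp only [xs]; rw [map_xv]
      · simp only [xs]; rw [map_uv]
    · rw [hc' j]
      rcases s with s | s
      · simp only [ys]; rw [map_yv]
      · simp only [ys]; rw [map_uv]
  tan κ _ σ ν s ξ η hxy := by
    haveI : CharZero κ := charZero_of_injective_ringHom σ.injective
    have hxs : ∀ j, σ (xs a b o h s j) = xs (fun i => σ (a i)) (fun i => σ (b i)) o h s j := by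
      intro j
      rcases s with s | s
      · simp only [xs]; rw [map_xv]
      · simp only [xs]; rw [map_uv]
    have hys : ∀ j, σ (ys a b o h s j) = ys (fun i => σ (a i)) (fun i => σ (b i)) o h s j := by
      intro j
      rcases s with s | s
      · simp only [ys]; rw [map_yv]
      · simp only [ys]; rw [map_uv]
    simp only [hxs, hys] at hxy ⊢
    apply tan_F (D.map σ) 1 ν s ξ η
    intro j j'
    rw [hxy j j']
    unfold comb
    refine Finset.sum_congr rfl fun i _ => ?_
    rw [map_Nt, map_one]
  hx s := by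
    rcases s with s | s
    · intro h0
      have := congrFun h0 (Sum.inl none)
      simp [xs, xv] at this
    · intro h0
      have := congrFun h0 (Sum.inr s)
      simp [xs, uv] at this
  hy s := by
    rcases s with s | s
    · intro h0
      have := congrFun h0 (Sum.inl none)
      simp [ys, yv] at this
    · intro h0
      have := congrFun h0 (Sum.inr s)
      simp [ys, uv] at this

/-- a decomposition indexed by a finite type -/
theorem Rk_of_index {α β γ : Type} [Fintype α] (T : α → β → γ → ℂ) (u : α → α → ℂ) (v : α → β → ℂ)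
    (w : α → γ → ℂ) (hT : ∀ i j l, T i j l = ∑ e, u e i * v e j * w e l) :
    Rk (Fintype.card α) T := by
  refine ⟨fun p => u ((Fintype.equivFin α).symm p), fun p => v ((Fintype.equivFin α).symm p),
    fun p => w ((Fintype.equivFin α).symm p), fun i j l => ?_⟩
  rw [hT]
  exact (Equiv.sum_comp (Fintype.equivFin α).symm (fun e => u e i * v e j * w e l)).symm

/-- first vector of the extra decomposable matrix -/
noncomputable def xG (X : ι → ℂ) (h : ℕ) : Option ι ⊕ Fin h → ℂ
  | Sum.inl none => 1
  | Sum.inl (some i) => X i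
  | Sum.inr _ => 0

theorem rank_special {a b : ι → ℂ} {o : ι} {p q : ι → ℕ} (D : Data a b o p q)
    (R S : Finset ι) (hR : o ∈ R) (hS : o ∈ S) (hRS : S.card = R.card)
    (hw : wt o p q R S ≠ 0) :
    Rk (Fintype.card ((ι × ι) ⊕ Fin h))
      (Nt a b o ((1 - (R.card : ℂ)) / (wt o p q R S : ℂ)) h) := by
  classical
  have hd : ∀ k l, a k - b l ≠ 0 := fun k l => sub_ne_zero.mpr (D.hab k l)
  set X : ι → ℂ := sol a b R S with hX
  set Y : ι → ℂ := sol b a S R with hY
  set W : ℂ := (wt o p q R S : ℂ) with hW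
  have hW0 : W ≠ 0 := by rw [hW]; exact_mod_cast hw
  set t : ℂ := (1 - (R.card : ℂ)) / W with ht
  have hab' : ∀ i j, b i ≠ a j := fun i j => (D.hab j i).symm
  have h1 := sol_spec a b D.ha R S hRS D.hab
  have h2 := sol_spec b a D.hb S R hRS.symm hab'
  rw [← hX] at h1
  rw [← hY] at h2
  have hX0 : ∀ i, i ∉ R → X i = 0 := by
    intro i hi; rw [hX]; unfold sol; rw [if_neg hi]
  have hY0 : ∀ i, i ∉ S → Y i = 0 := by
    intro i hi; rw [hY]; unfold sol; rw [if_neg hi]
  have sumR : ∀ g : ι → ℂ, ∑ i ∈ R, X i * g i = ∑ i, X i * g i := by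
    intro g
    apply Finset.sum_subset (Finset.subset_univ R)
    intro i _ hi
    rw [hX0 i hi, zero_mul]
  have sumS : ∀ g : ι → ℂ, ∑ i ∈ S, Y i * g i = ∑ i, Y i * g i := by
    intro g
    apply Finset.sum_subset (Finset.subset_univ S)
    intro i _ hi
    rw [hY0 i hi, zero_mul]
  have hdouble := double_sum a b D.ha D.hb R S hRS 1 1 X Y D.hab h1 h2
  have hsum : ∑ i, ∑ j, X i * Y j / (a i - b j) ^ 2 = -(R.card : ℂ) := by
    have e1 : ∑ i ∈ R, ∑ j ∈ S, X i * Y j / (a i - b j) ^ 2 =
        ∑ i, ∑ j, X i * Y j / (a i - b j) ^ 2 := by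
      have e2 : ∀ i, ∑ j ∈ S, X i * Y j / (a i - b j) ^ 2 = X i * ∑ j, Y j / (a i - b j) ^ 2 := by
        intro i
        calc ∑ j ∈ S, X i * Y j / (a i - b j) ^ 2 = ∑ j ∈ S, Y j * (X i / (a i - b j) ^ 2) :=
              Finset.sum_congr rfl fun j _ => by ring
          _ = ∑ j, Y j * (X i / (a i - b j) ^ 2) := sumS _
          _ = _ := by
              rw [Finset.mul_sum]
              exact Finset.sum_congr rfl fun j _ => by ring
      rw [Finset.sum_congr rfl fun i _ => e2 i, sumR]
      refine Finset.sum_congr rfl fun i _ => ?_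
      rw [Finset.mul_sum]
      exact Finset.sum_congr rfl fun j _ => by ring
    rw [← e1, hdouble]; ring
  have hoo : X o * Y o = -(W * (a o - b o) ^ 2) := by
    have e1 : X o * ∏ l ∈ R.erase o, (a o - a l) = 1 * ∏ j ∈ S, (a o - b j) :=
      x_eq a b D.hb R S hRS 1 X D.hab h1 hR
    have e2 : Y o * ∏ l ∈ S.erase o, (b o - b l) = 1 * ∏ i ∈ R, (b o - a i) :=
      x_eq b a D.ha S R hRS.symm 1 Y hab' h2 hS
    have := wt_eq D R S 1 1 (X o) (Y o) hR hS e1 e2
    rw [this]; ring
  -- the coefficients
  set C : ι → ι → ℂ := fun k l => X k * Y l / (W * (a k - b l) ^ 2) with hC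
  have hCoo : C o o = -1 := by
    have e := hd o o
    simp only [hC]
    rw [hoo]
    field_simp
  have key : ∀ j j', W⁻¹ * (xG X h j * xG Y h j') +
      comb a b o 0 (Sum.elim (fun kl : ι × ι => C kl.1 kl.2) (fun _ => 0)) j j' =
      t * (zv ι ℂ h j * zv ι ℂ h j') := by
    intro j j'
    rcases j with (_ | k) | s <;> rcases j' with (_ | l) | s'
    · rw [comb_nn]
      have e1 : ∑ k, ∑ l, C k l = W⁻¹ * ∑ i, ∑ j, X i * Y j / (a i - b j) ^ 2 := by
        rw [Finset.mul_sum]
        refine Finset.sum_congr rfl fun k _ => ?_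
        rw [Finset.mul_sum]
        refine Finset.sum_congr rfl fun l _ => ?_
        have e := hd k l
        simp only [hC]; field_simp
      simp only [xG, zv, Sum.elim_inl, mul_one, mul_zero, add_zero]
      rw [e1, hsum, ht]
      field_simp
      ring
    · rw [comb_ns]
      simp only [xG, zv, Sum.elim_inl, mul_one, one_mul, mul_zero]
      have e1 : ∑ k, C k l * (a k - b l) = -(W⁻¹ * (Y l * ∑ k, X k * (b l - a k)⁻¹)) := by
        rw [Finset.mul_sum, Finset.mul_sum, ← Finset.sum_neg_distrib]
        refine Finset.sum_congr rfl fun k _ => ?_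
        have e := hd k l
        have e2 : b l - a k = -(a k - b l) := by ring
        simp only [hC]
        rw [e2]
        field_simp
      rw [e1]
      by_cases hl : l ∈ S
      · have e3 := h1 l hl
        simp only [div_eq_mul_inv] at e3
        rw [sumR] at e3
        linear_combination (W⁻¹ * Y l) * e3
      · rw [hY0 l hl]; ring
    · rw [comb_lr]; simp [xG, zv]
    · rw [comb_sn]
      simp only [xG, zv, Sum.elim_inl, mul_one, zero_mul, mul_zero]
      have e1 : ∑ l, C k l * (a k - b l) = W⁻¹ * (X k * ∑ l, Y l * (a k - b l)⁻¹) := by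
        rw [Finset.mul_sum, Finset.mul_sum]
        refine Finset.sum_congr rfl fun l _ => ?_
        have e := hd k l
        simp only [hC]
        field_simp
      rw [e1]
      by_cases hk : k ∈ R
      · have e3 := h2 k hk
        simp only [div_eq_mul_inv] at e3
        rw [sumS] at e3
        linear_combination (W⁻¹ * X k) * e3
      · rw [hX0 k hk]; ring
    · rw [comb_ss]
      simp only [xG, zv, Sum.elim_inl, mul_zero]
      have e := hd k l
      simp only [hC]
      field_simp
      ring
    · rw [comb_lr]; simp [xG, zv]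
    · rw [comb_rl]; simp [xG, zv]
    · rw [comb_rl]; simp [xG, zv]
    · rw [comb_rr]; simp [xG, zv]
  have key2 : ∀ j j', W⁻¹ * (xG X h j * xG Y h j') +
      ∑ kl : ι × ι, C kl.1 kl.2 * (xv a b h kl.1 kl.2 j * yv a b h kl.1 kl.2 j') =
      t * (zv ι ℂ h j * zv ι ℂ h j') := by
    intro j j'
    rw [← key j j', comb_eq, Fintype.sum_prod_type]
    simp
  refine Rk_of_index _
    (fun e i => match e with
      | Sum.inl kl => if kl = (o, o) then (if i = Sum.inl (o, o) then W⁻¹ else 0)
          else (if i = Sum.inl kl then 1 else 0) + (if i = Sum.inl (o, o) then C kl.1 kl.2 else 0)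
      | Sum.inr s => if i = Sum.inr s then 1 else 0)
    (fun e => match e with
      | Sum.inl kl => if kl = (o, o) then xG X h else xv a b h kl.1 kl.2
      | Sum.inr s => uv ι ℂ s)
    (fun e => match e with
      | Sum.inl kl => if kl = (o, o) then xG Y h else yv a b h kl.1 kl.2
      | Sum.inr s => uv ι ℂ s) ?_
  intro i j j'
  rw [Fintype.sum_sum_type]
  rcases i with kl | s
  · have e2 : ∑ s : Fin h, (if (Sum.inl kl : (ι × ι) ⊕ Fin h) = Sum.inr s then (1 : ℂ) else 0) *
        uv ι ℂ s j * uv ι ℂ s j' = 0 := by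
      refine Finset.sum_eq_zero fun s _ => ?_
      simp
    by_cases hkl : kl = (o, o)
    · subst hkl
      have e3 : ∀ kl' : ι × ι, (if kl' = (o, o) then (if (Sum.inl (o, o) : (ι × ι) ⊕ Fin h) =
          Sum.inl (o, o) then W⁻¹ else 0)
          else (if (Sum.inl (o, o) : (ι × ι) ⊕ Fin h) = Sum.inl kl' then 1 else 0) +
            (if (Sum.inl (o, o) : (ι × ι) ⊕ Fin h) = Sum.inl (o, o) then C kl'.1 kl'.2 else 0)) *
          (if kl' = (o, o) then xG X h else xv a b h kl'.1 kl'.2) j *
          (if kl' = (o, o) then xG Y h else yv a b h kl'.1 kl'.2) j' =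
          C kl'.1 kl'.2 * (xv a b h kl'.1 kl'.2 j * yv a b h kl'.1 kl'.2 j') +
          (if kl' = (o, o) then W⁻¹ * (xG X h j * xG Y h j') + xv a b h o o j * yv a b h o o j'
            else 0) := by
        intro kl'
        by_cases hkl' : kl' = (o, o)
        · subst hkl'
          simp only [if_true]
          rw [hCoo]; ring
        · have hne : (Sum.inl (o, o) : (ι × ι) ⊕ Fin h) ≠ Sum.inl kl' := by
            intro h3; exact hkl' (Sum.inl.inj h3).symm
          simp only [if_neg hkl', if_neg hne, if_true]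
          ring
      show _ = (∑ kl' : ι × ι, _) + _
      rw [Finset.sum_congr rfl fun kl' _ => e3 kl', Finset.sum_add_distrib, Finset.sum_ite_eq'
        Finset.univ (o, o), if_pos (Finset.mem_univ _)]
      have e4 : Nt a b o t h (Sum.inl (o, o)) j j' = xv a b h o o j * yv a b h o o j' +
          t * (zv ι ℂ h j * zv ι ℂ h j') := by
        simp only [Nt, if_true]
      rw [e4, ← key2 j j']
      rw [show (∑ s : Fin h, (if (Sum.inl (o, o) : (ι × ι) ⊕ Fin h) = Sum.inr s then (1 : ℂ) else 0) *
        uv ι ℂ s j * uv ι ℂ s j') = 0 from e2]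
      ring
    · have hne : (Sum.inl kl : (ι × ι) ⊕ Fin h) ≠ Sum.inl (o, o) := by
        intro h3; exact hkl (Sum.inl.inj h3)
      have e3 : ∀ kl' : ι × ι, (if kl' = (o, o) then (if (Sum.inl kl : (ι × ι) ⊕ Fin h) =
          Sum.inl (o, o) then W⁻¹ else 0)
          else (if (Sum.inl kl : (ι × ι) ⊕ Fin h) = Sum.inl kl' then 1 else 0) +
            (if (Sum.inl kl : (ι × ι) ⊕ Fin h) = Sum.inl (o, o) then C kl'.1 kl'.2 else 0)) *
          (if kl' = (o, o) then xG X h else xv a b h kl'.1 kl'.2) j *
          (if kl' = (o, o) then xG Y h else yv a b h kl'.1 kl'.2) j' =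
          (if kl' = kl then xv a b h kl.1 kl.2 j * yv a b h kl.1 kl.2 j' else 0) := by
        intro kl'
        by_cases hkl' : kl' = (o, o)
        · subst hkl'
          rw [if_pos rfl, if_neg hne, zero_mul, zero_mul, if_neg (Ne.symm hkl)]
        · rw [if_neg hkl', if_neg hne, if_neg hkl', if_neg hkl', add_zero]
          by_cases hkk : kl' = kl
          · subst hkk; simp
          · have : (Sum.inl kl : (ι × ι) ⊕ Fin h) ≠ Sum.inl kl' := by
              intro h3; exact hkk (Sum.inl.inj h3).symm
            rw [if_neg this, if_neg hkk]; ring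
      show _ = (∑ kl' : ι × ι, _) + _
      rw [Finset.sum_congr rfl fun kl' _ => e3 kl', Finset.sum_ite_eq' Finset.univ kl,
        if_pos (Finset.mem_univ _)]
      rw [show (∑ s : Fin h, (if (Sum.inl kl : (ι × ι) ⊕ Fin h) = Sum.inr s then (1 : ℂ) else 0) *
        uv ι ℂ s j * uv ι ℂ s j') = 0 from e2]
      simp only [Nt, if_neg hkl]
  · have e1 : ∀ kl' : ι × ι, (if kl' = (o, o) then (if (Sum.inr s : (ι × ι) ⊕ Fin h) =
          Sum.inl (o, o) then W⁻¹ else 0)
          else (if (Sum.inr s : (ι × ι) ⊕ Fin h) = Sum.inl kl' then 1 else 0) +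
            (if (Sum.inr s : (ι × ι) ⊕ Fin h) = Sum.inl (o, o) then C kl'.1 kl'.2 else 0)) *
          (if kl' = (o, o) then xG X h else xv a b h kl'.1 kl'.2) j *
          (if kl' = (o, o) then xG Y h else yv a b h kl'.1 kl'.2) j' = 0 := by
      intro kl'
      simp
    have e2 : ∀ s' : Fin h, (if (Sum.inr s : (ι × ι) ⊕ Fin h) = Sum.inr s' then (1 : ℂ) else 0) *
        uv ι ℂ s' j * uv ι ℂ s' j' = if s' = s then uv ι ℂ s j * uv ι ℂ s j' else 0 := by
      intro s'
      by_cases hs : s' = s
      · subst hs; simp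
      · have : (Sum.inr s : (ι × ι) ⊕ Fin h) ≠ Sum.inr s' := by
          intro h3; exact hs (Sum.inr.inj h3).symm
        rw [if_neg this, if_neg hs]; ring
    show _ = (∑ kl' : ι × ι, _) + ∑ s' : Fin h, _
    rw [Finset.sum_congr rfl fun kl' _ => e1 kl', Finset.sum_const_zero, zero_add,
      Finset.sum_congr rfl fun s' _ => e2 s', Finset.sum_ite_eq' Finset.univ s,
      if_pos (Finset.mem_univ _)]
    simp only [Nt]

end Pool.Agent.H875.DK
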