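import Mathlib
import Pool.Agent.H875.DK.Spec

/-!
The numerical data and the number of special values.
-/

set_option linter.unusedSectionVars false

namespace Pool.Agent.H875.DK

open MvPolynomial

/-- a sequence of distinct primes larger than `μ` -/
noncomputable def pr (μ : ℕ) (n : ℕ) : ℕ := Nat.nth Nat.Prime (μ + 1 + n)

theorem pr_prime (μ n : ℕ) : (pr μ n).Prime := Nat.nth_mem_of_infinite Nat.infinite_setOfPred_prime _

theorem pr_gt (μ n : ℕ) : μ < pr μ n := by
  have h : μ + 1 + n ≤ Nat.nth Nat.Prime (μ + 1 + n) :=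
    (Nat.nth_strictMono Nat.infinite_setOfPred_prime).id_le _
  unfold pr; omega

theorem pr_inj (μ : ℕ) : Function.Injective (pr μ) := by
  intro m n hmn
  have := (Nat.nth_strictMono Nat.infinite_setOfPred_prime).injective hmn
  omega

/-- the primes attached to rows and columns -/
noncomputable def P (μ : ℕ) (z : Fin μ ⊕ Fin μ) : ℕ := match z with
  | Sum.inl i => pr μ (2 * i.val)
  | Sum.inr i => pr μ (2 * i.val + 1)

theorem P_prime (μ : ℕ) (z) : (P μ z).Prime := by
  rcases z with z | z <;> exact pr_prime _ _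

theorem P_gt (μ : ℕ) (z) : μ < P μ z := by
  rcases z with z | z <;> exact pr_gt _ _

theorem P_inj (μ : ℕ) : Function.Injective (P μ) := by
  intro z z' h
  rcases z with z | z <;> rcases z' with z' | z' <;> have h1 := pr_inj μ h
  · congr 1; apply Fin.ext; omega
  · omega
  · omega
  · congr 1; apply Fin.ext; omega

/-- row parameters -/
noncomputable def aa (μ : ℕ) : Option (Fin μ) → ℂ
  | none => 0
  | some i => -1 / ((P μ (Sum.inl i) : ℂ) - 1)

/-- column parameters -/
noncomputable def bb (μ : ℕ) : Option (Fin μ) → ℂ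
  | none => 1
  | some i => (P μ (Sum.inr i) : ℂ) / ((P μ (Sum.inr i) : ℂ) - 1)

/-- row weights -/
noncomputable def pw (μ : ℕ) : Option (Fin μ) → ℕ
  | none => 1
  | some i => P μ (Sum.inl i)

/-- column weights -/
noncomputable def qw (μ : ℕ) : Option (Fin μ) → ℕ
  | none => 1
  | some i => P μ (Sum.inr i)

theorem P_cast_ne_one (μ : ℕ) (z) : (P μ z : ℂ) - 1 ≠ 0 := by
  rw [sub_ne_zero]
  have := (P_prime μ z).one_lt
  exact_mod_cast this.ne'

theorem P_cast_ne_zero (μ : ℕ) (z) : (P μ z : ℂ) ≠ 0 := by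
  have := (P_prime μ z).pos
  exact_mod_cast this.ne'

theorem data (μ : ℕ) : Data (aa μ) (bb μ) none (pw μ) (qw μ) where
  ha := by
    intro i j hij
    rcases i with _ | i <;> rcases j with _ | j
    · rfl
    · exfalso
      simp only [aa] at hij
      exact (div_ne_zero (by norm_num) (P_cast_ne_one μ _)) hij.symm
    · exfalso
      simp only [aa] at hij
      exact (div_ne_zero (by norm_num) (P_cast_ne_one μ _)) hij
    · simp only [aa] at hij
      have e1 := P_cast_ne_one μ (Sum.inl i)
      have e2 := P_cast_ne_one μ (Sum.inl j)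
      rw [div_eq_div_iff e1 e2] at hij
      have h1 : (P μ (Sum.inl i) : ℂ) = P μ (Sum.inl j) := by linear_combination hij
      have h2 := P_inj μ (Nat.cast_injective h1)
      rw [Sum.inl.inj h2]
  hb := by
    intro i j hij
    rcases i with _ | i <;> rcases j with _ | j
    · rfl
    · exfalso
      simp only [bb] at hij
      have e1 := P_cast_ne_one μ (Sum.inr j)
      rw [eq_div_iff e1] at hij
      have : (1 : ℂ) = 0 := by linear_combination -hij
      exact one_ne_zero this
    · exfalso
      simp only [bb] at hij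
      have e1 := P_cast_ne_one μ (Sum.inr i)
      rw [div_eq_iff e1] at hij
      have : (1 : ℂ) = 0 := by linear_combination hij
      exact one_ne_zero this
    · simp only [bb] at hij
      have e1 := P_cast_ne_one μ (Sum.inr i)
      have e2 := P_cast_ne_one μ (Sum.inr j)
      rw [div_eq_div_iff e1 e2] at hij
      have h1 : (P μ (Sum.inr i) : ℂ) = P μ (Sum.inr j) := by linear_combination -hij
      have h2 := P_inj μ (Nat.cast_injective h1)
      rw [Sum.inr.inj h2]
  hab := by
    intro i j hij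
    rcases i with _ | i <;> rcases j with _ | j
    · simp [aa, bb] at hij
    · simp only [aa, bb] at hij
      exact (div_ne_zero (P_cast_ne_zero μ _) (P_cast_ne_one μ _)) hij.symm
    · simp only [aa, bb] at hij
      have e1 := P_cast_ne_one μ (Sum.inl i)
      rw [div_eq_iff e1] at hij
      apply P_cast_ne_zero μ (Sum.inl i)
      linear_combination -hij
    · simp only [aa, bb] at hij
      have e1 := P_cast_ne_one μ (Sum.inl i)
      have e2 := P_cast_ne_one μ (Sum.inr j)
      rw [div_eq_div_iff e1 e2] at hij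
      have h1 : ((P μ (Sum.inl i) * P μ (Sum.inr j) : ℕ) : ℂ) = ((1 : ℕ) : ℂ) := by
        push_cast
        linear_combination -hij
      have h2 : P μ (Sum.inl i) * P μ (Sum.inr j) = 1 := Nat.cast_injective h1
      have h3 := (P_prime μ (Sum.inl i)).one_lt
      have h4 := Nat.eq_one_of_mul_eq_one_right h2
      omega
  hq := by
    intro c hc
    rcases c with _ | c
    · exact absurd rfl hc
    · simp only [aa, bb, qw]
      have e1 := P_cast_ne_one μ (Sum.inr c)
      field_simp
      ring
  hp := by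
    intro c hc
    rcases c with _ | c
    · exact absurd rfl hc
    · simp only [aa, bb, pw]
      have e1 := P_cast_ne_one μ (Sum.inl c)
      field_simp
      ring

theorem wt_pos (μ : ℕ) (R S : Finset (Option (Fin μ))) : wt none (pw μ) (qw μ) R S ≠ 0 := by
  unfold wt
  refine mul_ne_zero (Finset.prod_ne_zero_iff.mpr fun c hc => ?_)
    (Finset.prod_ne_zero_iff.mpr fun c hc => ?_)
  · rcases c with _ | c
    · exact absurd rfl (Finset.mem_erase.mp hc).1
    · show P μ (Sum.inr c) ≠ 0
      exact (P_prime μ _).pos.ne'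
  · rcases c with _ | c
    · exact absurd rfl (Finset.mem_erase.mp hc).1
    · show P μ (Sum.inl c) ≠ 0
      exact (P_prime μ _).pos.ne'

section count

variable {μ : ℕ}

/-- the left part -/
def lft (Z : Finset (Fin μ ⊕ Fin μ)) : Finset (Fin μ) := Finset.univ.filter fun i => Sum.inl i ∈ Z

/-- the right part -/
def rgt (Z : Finset (Fin μ ⊕ Fin μ)) : Finset (Fin μ) := Finset.univ.filter fun i => Sum.inr i ∈ Z

theorem card_lr (Z : Finset (Fin μ ⊕ Fin μ)) : Z.card = (lft Z).card + (rgt Z).card := by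
  have h : Z = (lft Z).disjSum (rgt Z) := by
    ext z
    rcases z with z | z
    · simp [lft]
    · simp [rgt]
  conv_lhs => rw [h]
  rw [Finset.card_disjSum]

theorem prod_lr (Z : Finset (Fin μ ⊕ Fin μ)) (f : Fin μ ⊕ Fin μ → ℕ) :
    ∏ z ∈ Z, f z = (∏ i ∈ lft Z, f (Sum.inl i)) * ∏ i ∈ rgt Z, f (Sum.inr i) := by
  have h : Z = (lft Z).disjSum (rgt Z) := by
    ext z
    rcases z with z | z
    · simp [lft]
    · simp [rgt]
  conv_lhs => rw [h]
  rw [Finset.prod_disjSum]

/-- switch the left part -/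
def sw (I : Finset (Fin μ ⊕ Fin μ)) : Finset (Fin μ ⊕ Fin μ) :=
  (Finset.univ \ lft I).disjSum (rgt I)

theorem lft_sw (I : Finset (Fin μ ⊕ Fin μ)) : lft (sw I) = Finset.univ \ lft I := by
  ext i; simp [lft, sw]

theorem rgt_sw (I : Finset (Fin μ ⊕ Fin μ)) : rgt (sw I) = rgt I := by
  ext i; simp [rgt, sw]

theorem sw_inj : Function.Injective (sw : Finset (Fin μ ⊕ Fin μ) → _) := by
  intro I J h
  have h1 := congrArg lft h
  have h2 := congrArg rgt h
  rw [lft_sw, lft_sw] at h1
  rw [rgt_sw, rgt_sw] at h2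
  have h3 : lft I = lft J := by
    ext i
    have := Finset.ext_iff.mp h1 i
    simp only [Finset.mem_sdiff, Finset.mem_univ, true_and] at this
    exact not_iff_not.mp this
  ext z
  rcases z with z | z
  · have := Finset.ext_iff.mp h3 z
    simpa [lft] using this
  · have := Finset.ext_iff.mp h2 z
    simpa [rgt] using this

/-- balanced sets -/
noncomputable def bal (μ : ℕ) : Finset (Finset (Fin μ ⊕ Fin μ)) :=
  (Finset.powersetCard μ Finset.univ).image sw

theorem card_bal (μ : ℕ) : (bal μ).card = Nat.centralBinom μ := by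
  unfold bal
  rw [Finset.card_image_of_injective _ sw_inj, Finset.card_powersetCard, Finset.card_univ,
    Fintype.card_sum, Fintype.card_fin, Nat.centralBinom_eq_two_mul_choose, two_mul]

theorem bal_spec {Z : Finset (Fin μ ⊕ Fin μ)} (hZ : Z ∈ bal μ) : (lft Z).card = (rgt Z).card := by
  unfold bal at hZ
  rw [Finset.mem_image] at hZ
  obtain ⟨I, hI, rfl⟩ := hZ
  rw [Finset.mem_powersetCard] at hI
  rw [lft_sw, rgt_sw, Finset.card_sdiff_of_subset (Finset.subset_univ _), Finset.card_univ,
    Fintype.card_fin]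
  have := card_lr I
  have h2 : (lft I).card ≤ μ := by
    have := Finset.card_le_univ (lft I)
    rwa [Fintype.card_fin] at this
  omega

/-- the value of the parameter attached to a balanced set -/
noncomputable def tv (μ : ℕ) (Z : Finset (Fin μ ⊕ Fin μ)) : ℂ :=
  -((lft Z).card : ℂ) / ((∏ z ∈ Z, P μ z : ℕ) : ℂ)

theorem prod_ne (Z : Finset (Fin μ ⊕ Fin μ)) : (∏ z ∈ Z, P μ z) ≠ 0 :=
  Finset.prod_ne_zero_iff.mpr fun z _ => (P_prime μ z).pos.ne'

theorem sub_of_eq {Z Z' : Finset (Fin μ ⊕ Fin μ)} (hl : (lft Z).card ≠ 0)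
    (h : (lft Z).card * ∏ z ∈ Z', P μ z = (lft Z').card * ∏ z ∈ Z, P μ z) : Z ⊆ Z' := by
  intro z hz
  have h1 : P μ z ∣ (lft Z).card * ∏ z ∈ Z', P μ z := by
    rw [h]
    exact Dvd.dvd.mul_left (Finset.dvd_prod_of_mem _ hz) _
  rcases (P_prime μ z).dvd_mul.mp h1 with h2 | h2
  · exfalso
    have h3 := Nat.le_of_dvd (Nat.pos_of_ne_zero hl) h2
    have h4 := P_gt μ z
    have h5 : (lft Z).card ≤ μ := by
      have := Finset.card_le_univ (lft Z)
      rwa [Fintype.card_fin] at this
    omega
  · obtain ⟨z', hz', h3⟩ := (P_prime μ z).prime.exists_mem_finset_dvd h2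
    have h4 := (Nat.prime_dvd_prime_iff_eq (P_prime μ z) (P_prime μ z')).mp h3
    rw [P_inj μ h4]; exact hz'

theorem tv_inj : Set.InjOn (tv μ) (bal μ) := by
  intro Z hZ Z' hZ' h
  have hZ := bal_spec hZ
  have hZ' := bal_spec hZ'
  unfold tv at h
  have e1 : ((∏ z ∈ Z, P μ z : ℕ) : ℂ) ≠ 0 := by exact_mod_cast prod_ne Z
  have e2 : ((∏ z ∈ Z', P μ z : ℕ) : ℂ) ≠ 0 := by exact_mod_cast prod_ne Z'
  rw [div_eq_div_iff e1 e2] at h
  have h1 : (((lft Z).card * ∏ z ∈ Z', P μ z : ℕ) : ℂ) = (((lft Z').card * ∏ z ∈ Z, P μ z : ℕ) : ℂ) := by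
    push_cast at h ⊢
    linear_combination -h
  have h2 : (lft Z).card * ∏ z ∈ Z', P μ z = (lft Z').card * ∏ z ∈ Z, P μ z :=
    Nat.cast_injective h1
  by_cases h0 : (lft Z).card = 0
  · have h3 : (lft Z').card = 0 := by
      rw [h0, zero_mul] at h2
      exact (Nat.mul_eq_zero.mp h2.symm).resolve_right (prod_ne Z)
    have h4 := card_lr Z
    have h5 := card_lr Z'
    have h6 : Z = ∅ := Finset.card_eq_zero.mp (by omega)
    have h7 : Z' = ∅ := Finset.card_eq_zero.mp (by omega)
    rw [h6, h7]
  · have h0' : (lft Z').card ≠ 0 := by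
      intro h3
      rw [h3, zero_mul] at h2
      exact (Nat.mul_eq_zero.mp h2).elim h0 (prod_ne Z')
    exact Finset.Subset.antisymm (sub_of_eq h0 h2) (sub_of_eq h0' h2.symm)

/-- the tensor has small rank for the special values -/
theorem rank_tv (h : ℕ) {Z : Finset (Fin μ ⊕ Fin μ)} (hZ : Z ∈ bal μ) :
    Rk (Fintype.card ((Option (Fin μ) × Option (Fin μ)) ⊕ Fin h))
      (Nt (aa μ) (bb μ) none (tv μ Z) h) := by
  have hb := bal_spec hZ
  have h1 := rank_special (h := h) (data μ) (Finset.insertNone (lft Z)) (Finset.insertNone (rgt Z))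
    (by simp) (by simp) (by rw [Finset.card_insertNone, Finset.card_insertNone, hb])
    (wt_pos μ _ _)
  have h2 : (1 - ((Finset.insertNone (lft Z)).card : ℂ)) /
      (wt none (pw μ) (qw μ) (Finset.insertNone (lft Z)) (Finset.insertNone (rgt Z)) : ℂ) = tv μ Z := by
    unfold tv
    congr 1
    · rw [Finset.card_insertNone]; push_cast; ring
    · congr 1
      unfold wt
      rw [prod_lr, mul_comm]
      have e : ∀ T : Finset (Fin μ), (Finset.insertNone T).erase none = T.map Function.Embedding.some := by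
        intro T
        ext x
        rcases x with _ | x <;> simp
      rw [e, e, Finset.prod_map, Finset.prod_map]
      rfl
  rw [h2] at h1
  exact h1

end count

/-- the line argument -/
theorem vanish_line {α β γ : Type} [Fintype α] (N0 N1 : α → β → γ → ℂ) (k D : ℕ) (ts : Finset ℂ)
    (hts : D ≤ ts.card) (hrk : ∀ t ∈ ts, Rk k (fun i j l => N0 i j l + t * N1 i j l))
    (g : MvPolynomial (α × β × γ) ℂ) (hdeg : g.totalDegree < D)
    (hg : ∀ T : α → β → γ → ℂ, Rk k T → eval (fun e => T e.1 e.2.1 e.2.2) g = 0) (t : ℂ) :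
    eval (fun e : α × β × γ => N0 e.1 e.2.1 e.2.2 + t * N1 e.1 e.2.1 e.2.2) g = 0 := by
  set G : Polynomial ℂ := aeval (fun e : α × β × γ => Polynomial.C (N0 e.1 e.2.1 e.2.2) +
    Polynomial.X * Polynomial.C (N1 e.1 e.2.1 e.2.2)) g with hG
  have heval : ∀ s : ℂ, G.eval s =
      eval (fun e : α × β × γ => N0 e.1 e.2.1 e.2.2 + s * N1 e.1 e.2.1 e.2.2) g := by
    intro s
    have h1 : (Polynomial.evalRingHom s).comp (aeval (fun e : α × β × γ =>
        Polynomial.C (N0 e.1 e.2.1 e.2.2) + Polynomial.X * Polynomial.C (N1 e.1 e.2.1 e.2.2)) :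
        MvPolynomial (α × β × γ) ℂ →ₐ[ℂ] Polynomial ℂ).toRingHom =
        eval (fun e : α × β × γ => N0 e.1 e.2.1 e.2.2 + s * N1 e.1 e.2.1 e.2.2) := by
      apply MvPolynomial.ringHom_ext
      · intro r
        show Polynomial.eval s (aeval _ (C r)) = eval _ (C r)
        rw [aeval_C, eval_C]
        exact Polynomial.eval_C
      · intro e
        show Polynomial.eval s (aeval _ (X e)) = eval _ (X e)
        rw [aeval_X, eval_X, Polynomial.eval_add, Polynomial.eval_mul, Polynomial.eval_C,
          Polynomial.eval_C, Polynomial.eval_X]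
    rw [← h1]; rfl
  have hnat : G.natDegree ≤ g.totalDegree := by
    have h1 := aeval_natDegree_le g (m := g.totalDegree) le_rfl (fun e : α × β × γ =>
      Polynomial.C (N0 e.1 e.2.1 e.2.2) + Polynomial.X * Polynomial.C (N1 e.1 e.2.1 e.2.2))
      (n := 1) (by
        intro e
        refine (Polynomial.natDegree_add_le _ _).trans (max_le ?_ ?_)
        · simp
        · refine Polynomial.natDegree_mul_le.trans ?_
          simp)
    rwa [mul_one] at h1
  have hroot : ∀ s ∈ ts, G.eval s = 0 := by
    intro s hs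
    rw [heval]
    exact hg (fun i j l => N0 i j l + s * N1 i j l) (hrk s hs)
  have hlt : G.natDegree < ts.card := by omega
  clear_value G
  have hG0 : G = 0 :=
    Polynomial.eq_zero_of_natDegree_lt_card_of_eval_eq_zero' G ts hroot hlt
  rw [← heval, hG0, Polynomial.eval_zero]

/-- the three-factor result -/
theorem three (μ h : ℕ) :
    ∃ N : ((Option (Fin μ) × Option (Fin μ)) ⊕ Fin h) → (Option (Option (Fin μ)) ⊕ Fin h) →
        (Option (Option (Fin μ)) ⊕ Fin h) → ℂ,
      (∃ f : MvPolynomial (((Option (Fin μ) × Option (Fin μ)) ⊕ Fin h) ×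
          (Option (Option (Fin μ)) ⊕ Fin h) × (Option (Option (Fin μ)) ⊕ Fin h)) ℂ,
        (∀ T, Rk ((μ + 1) ^ 2 + h) T → eval (fun e => T e.1 e.2.1 e.2.2) f = 0) ∧
        eval (fun e => N e.1 e.2.1 e.2.2) f ≠ 0) ∧
      ∀ g : MvPolynomial (((Option (Fin μ) × Option (Fin μ)) ⊕ Fin h) ×
          (Option (Option (Fin μ)) ⊕ Fin h) × (Option (Option (Fin μ)) ⊕ Fin h)) ℂ,
        (∀ T, Rk ((μ + 1) ^ 2 + h) T → eval (fun e => T e.1 e.2.1 e.2.2) g = 0) →
        g.totalDegree < Nat.centralBinom μ → eval (fun e => N e.1 e.2.1 e.2.2) g = 0 := by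
  classical
  have hcard : Fintype.card ((Option (Fin μ) × Option (Fin μ)) ⊕ Fin h) = (μ + 1) ^ 2 + h := by
    rw [Fintype.card_sum, Fintype.card_prod, Fintype.card_option, Fintype.card_fin,
      Fintype.card_fin]; ring
  have hcard2 : Fintype.card ({e : Option (Fin μ) × Option (Fin μ) // e ≠ (none, none)} ⊕ Fin h) <
      Fintype.card ((Option (Fin μ) × Option (Fin μ)) ⊕ Fin h) := by
    rw [Fintype.card_sum, Fintype.card_sum]
    have : Fintype.card {e : Option (Fin μ) × Option (Fin μ) // e ≠ (none, none)} <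
        Fintype.card (Option (Fin μ) × Option (Fin μ)) :=
      Fintype.card_subtype_lt (x := (none, none)) (by simp)
    omega
  refine ⟨Nt (aa μ) (bb μ) none 1 h, ?_, ?_⟩
  · have := exists_poly (good (h := h) (data μ) (wt_pos μ)) hcard2
    rwa [hcard] at this
  · intro g hg hdeg
    have hNt : ∀ (t : ℂ), Nt (aa μ) (bb μ) none t h = fun i j l =>
        Nt (aa μ) (bb μ) none 0 h i j l +
          t * (Nt (aa μ) (bb μ) none 1 h i j l - Nt (aa μ) (bb μ) none 0 h i j l) := by
      intro t
      funext i j l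
      rcases i with i | i
      · simp only [Nt]
        split_ifs <;> ring
      · simp only [Nt]; ring
    have h1 := vanish_line (Nt (aa μ) (bb μ) none 0 h)
      (fun i j l => Nt (aa μ) (bb μ) none 1 h i j l - Nt (aa μ) (bb μ) none 0 h i j l)
      ((μ + 1) ^ 2 + h) (Nat.centralBinom μ) ((bal μ).image (tv μ))
      (by rw [Finset.card_image_of_injOn tv_inj, card_bal])
      (by
        intro t ht
        rw [Finset.mem_image] at ht
        obtain ⟨Z, hZ, rfl⟩ := ht
        have h2 := rank_tv h hZ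
        rw [hcard, hNt] at h2
        exact h2) g hdeg hg 1
    rw [← h1]
    congr 2
    funext e
    ring

end Pool.Agent.H875.DK
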