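import Mathlib

/-!
Secant varieties of Segre varieties (as affine cones, in coordinates), their ideals, and the
meaning of a uniform degree bound.
-/

namespace Pool.Agent.H875.DK

open MvPolynomial

/-- The tensors in `ℂ^(a 0) ⊗ ... ⊗ ℂ^(a (n-1))`, given by their coordinates. -/
abbrev Tens {n : ℕ} (a : Fin n → ℕ) : Type := (∀ i, Fin (a i)) → ℂ

/-- `T` is a sum of `k` decomposable tensors, that is, the rank of `T` is at most `k`. -/
def RankLE {n : ℕ} {a : Fin n → ℕ} (k : ℕ) (T : Tens a) : Prop :=
  ∃ w : Fin k → ∀ i, Fin (a i) → ℂ, ∀ J, T J = ∑ p, ∏ i, w p i (J i)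

/-- The affine cone over the `k`-th secant variety of the Segre variety: the Zariski closure of the
set of tensors of rank at most `k`. -/
def secantVariety {n : ℕ} (a : Fin n → ℕ) (k : ℕ) : Set (Tens a) :=
  zeroLocus ℂ (vanishingIdeal ℂ {T : Tens a | RankLE k T})

/-- The ideal of all polynomials vanishing on the `k`-th secant variety. -/
noncomputable def secantIdeal {n : ℕ} (a : Fin n → ℕ) (k : ℕ) :
    Ideal (MvPolynomial (∀ i, Fin (a i)) ℂ) :=
  vanishingIdeal ℂ (secantVariety a k)

/-- The ideal of the `k`-th secant variety is generated by homogeneous polynomials of degree at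
most `d`. -/
def GeneratedInDegree {n : ℕ} (a : Fin n → ℕ) (k d : ℕ) : Prop :=
  ∃ S : Set (MvPolynomial (∀ i, Fin (a i)) ℂ),
    (∀ f ∈ S, ∃ e ≤ d, f.IsHomogeneous e) ∧ secantIdeal a k = Ideal.span S

/-- The `k`-th secant variety is the common zero set of polynomials of degree at most `d`. -/
def CutOutInDegree {n : ℕ} (a : Fin n → ℕ) (k d : ℕ) : Prop :=
  ∃ S : Set (MvPolynomial (∀ i, Fin (a i)) ℂ),
    (∀ f ∈ S, f.totalDegree ≤ d) ∧ secantVariety a k = {T | ∀ f ∈ S, eval T f = 0}

/-- The ideal of the `k`-th secant variety of every Segre variety is generated in degree at most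
`d`. -/
def UniformIdealBound (k d : ℕ) : Prop :=
  ∀ (n : ℕ) (a : Fin n → ℕ), 1 ≤ n → (∀ i, 1 ≤ a i) → GeneratedInDegree a k d

/-- The `k`-th secant variety of every Segre variety is the common zero set of polynomials of degree
at most `d`. -/
def UniformSetBound (k d : ℕ) : Prop :=
  ∀ (n : ℕ) (a : Fin n → ℕ), 1 ≤ n → (∀ i, 1 ≤ a i) → CutOutInDegree a k d

end Pool.Agent.H875.DK
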