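import Mathlib
import Pool.Agent.H875.DK.Defs
import Pool.Agent.H875.DK.Count

/-!
Transport of the three-factor result to arbitrary coordinates, and the degree bounds.
-/

namespace Pool.Agent.H875.DK

open MvPolynomial

/-- the three factors of an index -/
def tri {k q r : ℕ} : (∀ i, Fin ((![k, q, r] : Fin 3 → ℕ) i)) ≃ Fin k × Fin q × Fin r where
  toFun J := (J 0, J 1, J 2)
  invFun e := fun i => match i with
    | ⟨0, _⟩ => e.1
    | ⟨1, _⟩ => e.2.1
    | ⟨2, _⟩ => e.2.2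
  left_inv J := by
    funext i
    fin_cases i <;> rfl
  right_inv e := rfl

theorem mem_ideal {n : ℕ} {a : Fin n → ℕ} {k : ℕ} {g : MvPolynomial (∀ i, Fin (a i)) ℂ} :
    g ∈ secantIdeal a k ↔ ∀ T : Tens a, RankLE k T → eval T g = 0 := by
  unfold secantIdeal secantVariety
  constructor
  · intro hg T hT
    exact hg T (zeroLocus_vanishingIdeal_le _ hT)
  · intro hg T hT
    apply hT
    intro T' hT'
    exact hg T' hT'

theorem mem_variety {n : ℕ} {a : Fin n → ℕ} {k : ℕ} {T : Tens a} :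
    T ∈ secantVariety a k ↔ ∀ g ∈ secantIdeal a k, eval T g = 0 := by
  constructor
  · intro hT g hg
    exact hg T hT
  · intro h g hg
    show eval T g = 0
    apply h
    rw [mem_ideal]
    intro T' hT'
    exact hg T' hT'

theorem rk_of_rankLE {k q r s : ℕ} {α β γ : Type} (eα : α ≃ Fin k) (eβ : β ≃ Fin q)
    (eγ : γ ≃ Fin r) {T : Tens ![k, q, r]} (hT : RankLE s T) :
    Rk s (fun i j l => T (tri.symm (eα i, eβ j, eγ l))) := by
  obtain ⟨w, hw⟩ := hT
  refine ⟨fun p i => w p 0 (eα i), fun p j => w p 1 (eβ j), fun p l => w p 2 (eγ l), ?_⟩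
  intro i j l
  show T (tri.symm (eα i, eβ j, eγ l)) = _
  rw [hw]
  refine Finset.sum_congr rfl fun p _ => ?_
  rw [Fin.prod_univ_three]
  rfl

theorem rankLE_of_rk {k q r s : ℕ} {α β γ : Type} (eα : α ≃ Fin k) (eβ : β ≃ Fin q)
    (eγ : γ ≃ Fin r) {T : α → β → γ → ℂ} (hT : Rk s T) :
    RankLE (a := ![k, q, r]) s
      (fun J => T (eα.symm (tri J).1) (eβ.symm (tri J).2.1) (eγ.symm (tri J).2.2)) := by
  obtain ⟨u, v, w, h⟩ := hT
  refine ⟨fun p i => match i with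
    | ⟨0, _⟩ => fun x => u p (eα.symm x)
    | ⟨1, _⟩ => fun x => v p (eβ.symm x)
    | ⟨2, _⟩ => fun x => w p (eγ.symm x), ?_⟩
  intro J
  show T (eα.symm (tri J).1) (eβ.symm (tri J).2.1) (eγ.symm (tri J).2.2) = _
  rw [h]
  refine Finset.sum_congr rfl fun p _ => ?_
  rw [Fin.prod_univ_three]
  rfl

/-- the explicit format -/
theorem explicit (μ h : ℕ) :
    ∃ T : Tens ![(μ + 1) ^ 2 + h, μ + 2 + h, μ + 2 + h],
      T ∉ secantVariety ![(μ + 1) ^ 2 + h, μ + 2 + h, μ + 2 + h] ((μ + 1) ^ 2 + h) ∧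
      ∀ g ∈ secantIdeal ![(μ + 1) ^ 2 + h, μ + 2 + h, μ + 2 + h] ((μ + 1) ^ 2 + h),
        g.totalDegree < Nat.centralBinom μ → eval T g = 0 := by
  classical
  obtain ⟨N, ⟨f, hf1, hf2⟩, hg⟩ := three μ h
  have hcα : Fintype.card ((Option (Fin μ) × Option (Fin μ)) ⊕ Fin h) = (μ + 1) ^ 2 + h := by
    rw [Fintype.card_sum, Fintype.card_prod, Fintype.card_option, Fintype.card_fin,
      Fintype.card_fin]; ring
  have hcβ : Fintype.card (Option (Option (Fin μ)) ⊕ Fin h) = μ + 2 + h := by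
    rw [Fintype.card_sum, Fintype.card_option, Fintype.card_option, Fintype.card_fin,
      Fintype.card_fin]
  let eα := Fintype.equivFinOfCardEq hcα
  let eβ := Fintype.equivFinOfCardEq hcβ
  let E : (((Option (Fin μ) × Option (Fin μ)) ⊕ Fin h) × (Option (Option (Fin μ)) ⊕ Fin h) ×
      (Option (Option (Fin μ)) ⊕ Fin h)) ≃
      (∀ i, Fin ((![(μ + 1) ^ 2 + h, μ + 2 + h, μ + 2 + h] : Fin 3 → ℕ) i)) :=
    (Equiv.prodCongr eα (Equiv.prodCongr eβ eβ)).trans tri.symm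
  refine ⟨fun J => N (eα.symm (tri J).1) (eβ.symm (tri J).2.1) (eβ.symm (tri J).2.2), ?_, ?_⟩
  · intro hmem
    rw [mem_variety] at hmem
    have h1 : rename E f ∈
        secantIdeal ![(μ + 1) ^ 2 + h, μ + 2 + h, μ + 2 + h] ((μ + 1) ^ 2 + h) := by
      rw [mem_ideal]
      intro T hT
      rw [eval_rename]
      have h3 := hf1 (fun i j l => T (tri.symm (eα i, eβ j, eβ l))) (rk_of_rankLE eα eβ eβ hT)
      have h4 : (T ∘ E) = fun e => T (tri.symm (eα e.1, eβ e.2.1, eβ e.2.2)) := rfl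
      rw [h4]
      exact h3
    have h2 := hmem _ h1
    rw [eval_rename] at h2
    apply hf2
    have h4 : ((fun J => N (eα.symm (tri J).1) (eβ.symm (tri J).2.1) (eβ.symm (tri J).2.2)) ∘ E) =
        fun e => N e.1 e.2.1 e.2.2 := by
      funext e
      show N (eα.symm (eα e.1)) (eβ.symm (eβ e.2.1)) (eβ.symm (eβ e.2.2)) = N e.1 e.2.1 e.2.2
      rw [Equiv.symm_apply_apply, Equiv.symm_apply_apply, Equiv.symm_apply_apply]
    rw [h4] at h2
    exact h2
  · intro g hgm hdeg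
    rw [mem_ideal] at hgm
    have h1 : ∀ T, Rk ((μ + 1) ^ 2 + h) T →
        eval (fun e => T e.1 e.2.1 e.2.2) (rename E.symm g) = 0 := by
      intro T hT
      rw [eval_rename]
      have h3 := hgm (fun J => T (eα.symm (tri J).1) (eβ.symm (tri J).2.1) (eβ.symm (tri J).2.2))
        (rankLE_of_rk eα eβ eβ hT)
      have h4 : ((fun e => T e.1 e.2.1 e.2.2) ∘ E.symm) =
        fun J => T (eα.symm (tri J).1) (eβ.symm (tri J).2.1) (eβ.symm (tri J).2.2) := rfl
      rw [h4]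
      exact h3
    have h2 := hg (rename E.symm g) h1 (lt_of_le_of_lt (totalDegree_rename_le _ _) hdeg)
    rw [eval_rename] at h2
    have h4 : ((fun e => N e.1 e.2.1 e.2.2) ∘ E.symm) =
        fun J => N (eα.symm (tri J).1) (eβ.symm (tri J).2.1) (eβ.symm (tri J).2.2) := rfl
    rw [h4] at h2
    exact h2

theorem cut_of_gen {n : ℕ} {a : Fin n → ℕ} {k d : ℕ} (h : GeneratedInDegree a k d) :
    CutOutInDegree a k d := by
  obtain ⟨S, hS, hI⟩ := h
  refine ⟨S, fun f hf => ?_, ?_⟩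
  · obtain ⟨e, he, hfe⟩ := hS f hf
    exact hfe.totalDegree_le.trans he
  · ext T
    rw [mem_variety, hI]
    have h1 : T ∈ zeroLocus ℂ (Ideal.span S) ↔ T ∈ {x : Tens a | ∀ p ∈ S, aeval x p = 0} := by
      rw [zeroLocus_span]
    exact h1

theorem bound_of_cut {μ h d : ℕ}
    (hc : CutOutInDegree ![(μ + 1) ^ 2 + h, μ + 2 + h, μ + 2 + h] ((μ + 1) ^ 2 + h) d) :
    Nat.centralBinom μ ≤ d := by
  by_contra hlt
  push Not at hlt
  obtain ⟨S, hS, hV⟩ := hc
  obtain ⟨T, hT, hg⟩ := explicit μ h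
  apply hT
  rw [hV]
  intro f hf
  refine hg f ?_ (lt_of_le_of_lt (hS f hf) hlt)
  intro T' hT'
  rw [hV] at hT'
  exact hT' f hf

theorem four_pow_le (μ d : ℕ) (h : Nat.centralBinom μ ≤ d) : 4 ^ μ ≤ 2 * (μ + 1) * d := by
  have h1 : 4 ^ μ ≤ 2 * (μ + 1) * Nat.centralBinom μ := by
    rcases Nat.eq_zero_or_pos μ with h0 | h0
    · subst h0; simp
    · refine (Nat.four_pow_le_two_mul_self_mul_centralBinom μ h0).trans ?_
      exact Nat.mul_le_mul_right _ (by omega)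
  exact h1.trans (Nat.mul_le_mul_left _ h)

theorem sqrt_eq {k : ℕ} (hk : 1 ≤ k) :
    (Nat.sqrt k - 1 + 1) ^ 2 + (k - Nat.sqrt k ^ 2) = k ∧
    Nat.sqrt k - 1 + 2 + (k - Nat.sqrt k ^ 2) = Nat.sqrt k + 1 + (k - Nat.sqrt k ^ 2) := by
  have h1 : 1 ≤ Nat.sqrt k := by
    rw [Nat.le_sqrt']; simpa using hk
  have h2 : Nat.sqrt k ^ 2 ≤ k := Nat.sqrt_le' k
  have h3 : Nat.sqrt k - 1 + 1 = Nat.sqrt k := by omega
  rw [h3]
  omega

theorem final (k : ℕ) (hk : 1 ≤ k) :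
    (∃ T : Tens ![k, Nat.sqrt k + 1 + (k - Nat.sqrt k ^ 2), Nat.sqrt k + 1 + (k - Nat.sqrt k ^ 2)],
      T ∉ secantVariety _ k ∧ ∀ g ∈ secantIdeal _ k,
        g.totalDegree < Nat.centralBinom (Nat.sqrt k - 1) → eval T g = 0) ∧
    ∀ d, UniformIdealBound k d ∨ UniformSetBound k d →
      Nat.centralBinom (Nat.sqrt k - 1) ≤ d ∧ 4 ^ (Nat.sqrt k - 1) ≤ 2 * Nat.sqrt k * d := by
  obtain ⟨e1, e2⟩ := sqrt_eq hk
  have h1 := explicit (Nat.sqrt k - 1) (k - Nat.sqrt k ^ 2)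
  rw [e1, e2] at h1
  refine ⟨h1, fun d hd => ?_⟩
  have h3 : Nat.sqrt k - 1 + 1 = Nat.sqrt k := by
    have : 1 ≤ Nat.sqrt k := by
      rw [Nat.le_sqrt']; simpa using hk
    omega
  have h2 : UniformSetBound k d := by
    rcases hd with hd | hd
    · intro n a hn ha
      exact cut_of_gen (hd n a hn ha)
    · exact hd
  have h4 : Nat.centralBinom (Nat.sqrt k - 1) ≤ d := by
    apply bound_of_cut (h := k - Nat.sqrt k ^ 2)
    have h5 := h2 3 ![k, Nat.sqrt k + 1 + (k - Nat.sqrt k ^ 2),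
      Nat.sqrt k + 1 + (k - Nat.sqrt k ^ 2)] (by norm_num) (by
        intro i
        fin_cases i
        · exact hk
        · show 1 ≤ Nat.sqrt k + 1 + (k - Nat.sqrt k ^ 2)
          omega
        · show 1 ≤ Nat.sqrt k + 1 + (k - Nat.sqrt k ^ 2)
          omega)
    rw [e1, e2]
    exact h5
  refine ⟨h4, ?_⟩
  have h5 := four_pow_le _ _ h4
  rwa [h3] at h5

end Pool.Agent.H875.DK
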